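import Pool.Agent.Helper824.GSRel

set_option autoImplicit false

namespace Pool.Agent.Helper824.AlgR

open Module Pool.Agent.Helper824.GS Polynomial

section ideal

variable (k : ℕ)

/-- The free algebra over the rationals on `k + 1` letters. -/
abbrev A : Type := FA ℚ (Fin (k + 1))

instance countableA : Countable (A k) := by
  have : Countable (FreeMonoid (Fin (k + 1))) := inferInstanceAs (Countable (List (Fin (k + 1))))
  exact (MonoidAlgebra.coeffEquiv (R := ℚ) (M := FreeMonoid (Fin (k + 1)))).injective.countable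

theorem exists_good_ideal (hk : 1 ≤ k) : ∃ R : ℕ → Submodule ℚ (A k),
    (∀ i, R i ≤ V ℚ (Fin (k + 1)) i) ∧
    (∀ n, ∃ v : FreeMonoid (Fin (k + 1)), v.length = n ∧ (mon v : A k) ∉ Idl R n) ∧
    ∀ f : Fin k → A k, (∀ i, Ord 1 (f i)) → ∃ N, ∀ p : Fin N → Fin k, ev f p ∈ Jsub R := by
  have hne : Nonempty {f : Fin k → A k // ∀ i, Ord 1 (f i)} := ⟨⟨fun _ => 0, fun _ => Ord.zero' 1⟩⟩
  have hcount : Countable {f : Fin k → A k // ∀ i, Ord 1 (f i)} := inferInstance
  obtain ⟨e, he⟩ := exists_surjective_nat {f : Fin k → A k // ∀ i, Ord 1 (f i)}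
  have hk1 : (1 : ℝ) ≤ k := by exact_mod_cast hk
  have hk0 : (0 : ℝ) < 2 * k + 1 := by linarith
  obtain ⟨R, h1, h2, h3⟩ := exists_ideal (K := ℚ) (α := Fin (k + 1)) (2 / (2 * k + 1))
    (by positivity) (by rw [div_lt_one hk0]; linarith)
    (by rw [Fintype.card_fin, mul_div_assoc', lt_div_iff₀ hk0]; push_cast; linarith)
    (fun _ => Fin k) (fun _ _ => 1)
    (fun _ b => le_rfl)
    (fun _ => by
      simp only [pow_one, Finset.sum_const, Finset.card_univ, Fintype.card_fin, nsmul_eq_mul]
      rw [mul_div_assoc', div_lt_one hk0]; linarith)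
    (fun i => (e i).1) (fun i b => (e i).2 b)
  refine ⟨R, h1, h2, ?_⟩
  intro f hf
  obtain ⟨i, hi⟩ := he ⟨f, hf⟩
  obtain ⟨N, hN⟩ := h3 i
  refine ⟨N, fun p => ?_⟩
  have := hN p
  rwa [hi] at this

end ideal

section quot

variable {k : ℕ} (R : ℕ → Submodule ℚ (A k))

/-- The quotient algebra. -/
abbrev Q : Type := A k ⧸ J R

/-- The quotient map. -/
noncomputable def q : A k →ₐ[ℚ] Q R := Ideal.Quotient.mkₐ ℚ (J R)

theorem q_eq_zero {a : A k} : q R a = 0 ↔ a ∈ Jsub R := by
  change Ideal.Quotient.mk (J R) a = 0 ↔ _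
  rw [Ideal.Quotient.eq_zero_iff_mem]
  rfl

theorem q_surj : Function.Surjective (q R) := Ideal.Quotient.mk_surjective

/-- The image of a letter. -/
noncomputable def x (i : Fin (k + 1)) : Q R := q R (mon (FreeMonoid.of i))

/-- The grading, upstairs. -/
noncomputable def DA : A k →ₐ[ℚ] (Q R)[X] :=
  MonoidAlgebra.lift ℚ (Q R)[X] (FreeMonoid (Fin (k + 1)))
    (FreeMonoid.lift (fun i => C (x R i) * X))

theorem DA_mon (w : FreeMonoid (Fin (k + 1))) :
    DA R (mon w) = C (q R (mon w)) * X ^ w.length := by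
  have h0 : DA R (mon w) = FreeMonoid.lift (fun i => C (x R i) * X) w := by
    unfold DA mon
    rw [MonoidAlgebra.lift_single, one_smul]
  rw [h0]
  induction w using FreeMonoid.inductionOn' with
  | one =>
    rw [map_one, mon_one, map_one, map_one, FreeMonoid.length_one, pow_zero, one_mul]
  | of_mul i w ih =>
    have h1 : DA R (mon w) = FreeMonoid.lift (fun i => C (x R i) * X) w := by
      unfold DA mon
      rw [MonoidAlgebra.lift_single, one_smul]
    rw [map_mul, ih h1, FreeMonoid.lift_eval_of, ← mon_mul, map_mul, map_mul,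
      FreeMonoid.length_mul, FreeMonoid.length_of, add_comm 1 w.length, pow_succ']
    unfold x
    rw [mul_assoc, ← mul_assoc X, X_mul_C, mul_assoc, ← mul_assoc (C _)]

theorem DA_coeff (f : A k) (n : ℕ) : (DA R f).coeff n = q R (pr ℚ (Fin (k + 1)) n f) := by
  induction f using FA_induction with
  | h0 => simp
  | hadd f g hf hg => rw [map_add, map_add, map_add, coeff_add, hf, hg]
  | hsmul c f hf => rw [map_smul, map_smul, map_smul, coeff_smul, hf]
  | hmon w =>
    rw [DA_mon, pr_mon, coeff_C_mul, coeff_X_pow]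
    split_ifs with h1 h2 h2
    · rw [mul_one]
    · exact absurd h1.symm h2
    · exact absurd h2.symm h1
    · rw [mul_zero, map_zero]

variable (hR : ∀ i, R i ≤ V ℚ (Fin (k + 1)) i)

include hR in
theorem DA_eq_zero {f : A k} (hf : f ∈ J R) : DA R f = 0 := by
  ext n
  rw [DA_coeff, coeff_zero, q_eq_zero]
  exact Idl_le_Jsub n (pr_mem_Idl hR hf n)

/-- The grading. -/
noncomputable def D : Q R →ₐ[ℚ] (Q R)[X] :=
  Ideal.Quotient.liftₐ (J R) (DA R) (fun _ hf => DA_eq_zero R hR hf)

theorem D_q (f : A k) : D R hR (q R f) = DA R f := rfl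

theorem D_x (i : Fin (k + 1)) : D R hR (x R i) = C (x R i) * X := by
  unfold x
  rw [D_q, DA_mon, FreeMonoid.length_of, pow_one]

theorem eval_DA (f : A k) : (DA R f).eval 1 = q R f := by
  induction f using FA_induction with
  | h0 => simp
  | hadd f g hf hg => rw [map_add, map_add, eval_add, hf, hg]
  | hsmul c f hf => rw [map_smul, map_smul, eval_smul, hf]
  | hmon w => rw [DA_mon, eval_mul_X_pow, eval_C, one_pow, mul_one]

end quot

/-- A graded algebra over the rationals (the grading is given by the algebra map `D`, where the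
coefficient of degree `n` of `D b` is the homogeneous component of degree `n` of `b`), which has
elements `x i` of degree one with nonzero products of every length, such that `k` elements without
constant term always generate a nilpotent algebra. -/
structure GNil (k : ℕ) (B : Type) [Ring B] [Algebra ℚ B] where
  D : B →ₐ[ℚ] B[X]
  x : Fin (k + 1) → B
  eval_D : ∀ b, (D b).eval 1 = b
  D_x : ∀ i, D (x i) = C (x i) * X
  word_ne : ∀ n, ∃ w : List (Fin (k + 1)), w.length = n ∧ (w.map x).prod ≠ 0
  nil : ∀ f : Fin k → B, (∀ i, (D (f i)).coeff 0 = 0) →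
    ∃ N, ∀ p : Fin N → Fin k, ((List.ofFn p).map f).prod = 0

theorem exists_GNil (k : ℕ) (hk : 1 ≤ k) :
    ∃ (B : Type) (_ : Ring B) (_ : Algebra ℚ B), Nonempty (GNil k B) := by
  obtain ⟨R, hR, h2, h3⟩ := exists_good_ideal k hk
  refine ⟨Q R, inferInstance, inferInstance, ⟨⟨D R hR, x R, ?_, D_x R hR, ?_, ?_⟩⟩⟩
  · intro b
    obtain ⟨a, rfl⟩ := q_surj R b
    rw [D_q, eval_DA]
  · intro n
    obtain ⟨v, hv, hv2⟩ := h2 n
    refine ⟨v.toList, hv, ?_⟩
    have h4 : (v.toList.map (x R)).prod = q R (mon v) := by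
      clear hv hv2
      induction v using FreeMonoid.inductionOn' with
      | one => simp [mon_one]
      | of_mul i w ih =>
        rw [FreeMonoid.toList_of_mul, List.map_cons, List.prod_cons, ih, ← mon_mul, map_mul]
        rfl
    rw [h4]
    intro h5
    rw [q_eq_zero] at h5
    have h6 := pr_mem_Idl hR h5 n
    rw [pr_mon, if_pos hv] at h6
    exact hv2 h6
  · intro f hf
    have h4 : ∀ i, ∃ a : A k, Ord 1 a ∧ q R a = f i := by
      intro i
      obtain ⟨a, ha⟩ := q_surj R (f i)
      refine ⟨a - pr ℚ _ 0 a, ?_, ?_⟩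
      · intro m hm
        obtain rfl : m = 0 := by omega
        rw [map_sub, pr_of_mem ℚ _ 0 (pr_mem ℚ _ 0 a), if_pos rfl, sub_self]
      · have h5 := hf i
        rw [← ha, D_q, DA_coeff] at h5
        rw [map_sub, h5, sub_zero, ha]
    choose a ha1 ha2 using h4
    obtain ⟨N, hN⟩ := h3 a ha1
    refine ⟨N, fun p => ?_⟩
    have h6 := hN p
    unfold ev at h6
    rw [← q_eq_zero, map_list_prod, List.map_map] at h6
    have h7 : (q R) ∘ a = f := funext ha2
    rw [← h7]
    exact h6

end Pool.Agent.Helper824.AlgR
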