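import Pool.Agent.Helper824.Gam

set_option autoImplicit false

namespace Pool.Agent.Helper824.Core

variable {S : Type} [Ring S] [Algebra ℚ S]

/-- The group of the matrices with rows `(1, d, c)`, `(0, g, s)`, `(0, 0, 1)`, where `g` is in the
group `Γ` and the corner is only recorded through the linear functional `φ`. -/
@[ext]
structure GG (Γ : Subgroup Sˣ) (φ : S →ₗ[ℚ] ℚ) : Type where
  s : S
  c : ℚ
  d : S
  g : Γ

variable {Γ : Subgroup Sˣ} {φ : S →ₗ[ℚ] ℚ}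

/-- The underlying ring element. -/
def v (u : Γ) : S := ((u : Sˣ) : S)

theorem v_mul (u w : Γ) : v (u * w) = v u * v w := rfl

theorem v_one : v (1 : Γ) = 1 := rfl

theorem v_inv_mul (u : Γ) : v u⁻¹ * v u = 1 := by
  rw [← v_mul, inv_mul_cancel, v_one]

theorem v_mul_inv (u : Γ) : v u * v u⁻¹ = 1 := by
  rw [← v_mul, mul_inv_cancel, v_one]

instance : Mul (GG Γ φ) :=
  ⟨fun a b => ⟨a.s + v a.g * b.s, a.c + b.c + φ (a.d * b.s), a.d * v b.g + b.d, a.g * b.g⟩⟩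

instance : One (GG Γ φ) := ⟨⟨0, 0, 0, 1⟩⟩

instance : Inv (GG Γ φ) :=
  ⟨fun a => ⟨-(v a.g⁻¹ * a.s), -a.c + φ (a.d * v a.g⁻¹ * a.s), -(a.d * v a.g⁻¹), a.g⁻¹⟩⟩

theorem mul_s (a b : GG Γ φ) : (a * b).s = a.s + v a.g * b.s := rfl
theorem mul_c (a b : GG Γ φ) : (a * b).c = a.c + b.c + φ (a.d * b.s) := rfl
theorem mul_d (a b : GG Γ φ) : (a * b).d = a.d * v b.g + b.d := rfl
theorem mul_g (a b : GG Γ φ) : (a * b).g = a.g * b.g := rfl
theorem one_s : (1 : GG Γ φ).s = 0 := rfl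
theorem one_c : (1 : GG Γ φ).c = 0 := rfl
theorem one_d : (1 : GG Γ φ).d = 0 := rfl
theorem one_g : (1 : GG Γ φ).g = 1 := rfl
theorem inv_s (a : GG Γ φ) : (a⁻¹).s = -(v a.g⁻¹ * a.s) := rfl
theorem inv_c (a : GG Γ φ) : (a⁻¹).c = -a.c + φ (a.d * v a.g⁻¹ * a.s) := rfl
theorem inv_d (a : GG Γ φ) : (a⁻¹).d = -(a.d * v a.g⁻¹) := rfl
theorem inv_g (a : GG Γ φ) : (a⁻¹).g = a.g⁻¹ := rfl

instance : Group (GG Γ φ) := Group.ofLeftAxioms
  (by
    intro a b c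
    ext
    · simp only [mul_s, mul_g, v_mul]; noncomm_ring
    · simp only [mul_c, mul_s, mul_d, add_mul, mul_add, map_add, mul_assoc]; ring
    · simp only [mul_d, mul_g, v_mul]; noncomm_ring
    · simp only [mul_g, mul_assoc])
  (by
    intro a
    ext
    · simp only [mul_s, one_s, one_g, v_one]; noncomm_ring
    · simp only [mul_c, one_c, one_d, zero_mul, map_zero, add_zero, zero_add]
    · simp only [mul_d, one_d, zero_mul, zero_add]
    · simp only [mul_g, one_g, one_mul])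
  (by
    intro a
    ext
    · simp only [mul_s, inv_s, inv_g, one_s]; abel
    · simp only [mul_c, inv_c, inv_d, one_c, neg_mul, map_neg]; ring
    · simp only [mul_d, inv_d, one_d, neg_mul, mul_assoc, v_inv_mul, mul_one]; abel
    · simp only [mul_g, inv_g, one_g, inv_mul_cancel])

/-- The projection to the group `Γ`. -/
def pg : GG Γ φ →* Γ where
  toFun a := a.g
  map_one' := rfl
  map_mul' _ _ := rfl

/-- The commutator of `z` with `y`, where `z` is in the kernel of the projection. -/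
theorem comm_ker (z y : GG Γ φ) (hz : z.g = 1) :
    (z⁻¹ * y⁻¹ * z * y).s = (v y.g⁻¹ - 1) * z.s ∧
    (z⁻¹ * y⁻¹ * z * y).d = z.d * (v y.g - 1) ∧ (z⁻¹ * y⁻¹ * z * y).g = 1 := by
  refine ⟨?_, ?_, ?_⟩
  · simp only [mul_s, mul_g, inv_s, inv_g, hz, inv_one, v_one, one_mul, mul_one, v_mul]
    noncomm_ring
  · simp only [mul_d, mul_g, inv_d, inv_g, hz, inv_one, v_one, mul_one]
    simp only [add_mul, neg_mul, mul_assoc, v_inv_mul, mul_one, mul_sub]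
    abel
  · simp only [mul_g, inv_g, hz]
    group

theorem comm_corner (z y : GG Γ φ) (hz : z.g = 1) (hs : z.s = 0) (hd : z.d = 0) :
    z⁻¹ * y⁻¹ * z * y = 1 := by
  obtain ⟨h1, h2, h3⟩ := comm_ker z y hz
  ext
  · rw [h1, hs, mul_zero]; rfl
  · simp only [mul_c, mul_s, mul_d, mul_g, inv_c, inv_s, inv_d, inv_g, hz, hs, hd, one_c, inv_one,
      v_one, mul_zero, zero_mul, neg_zero, map_zero, add_zero, zero_add, mul_one, one_mul,
      neg_mul, mul_neg, map_neg]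
    rw [mul_assoc]
    ring
  · rw [h2, hd, zero_mul]; rfl
  · rw [h3]; rfl

theorem engel_GG
    (hE : ∀ x y : Γ, ∃ n, (fun z : Γ => z⁻¹ * y⁻¹ * z * y)^[n] x = 1)
    (hU : ∀ u : Γ, ∃ n, (((u : Sˣ) : S) - 1) ^ n = 0) (x y : GG Γ φ) :
    ∃ n, (fun z : GG Γ φ => z⁻¹ * y⁻¹ * z * y)^[n] x = 1 := by
  obtain ⟨n0, h0⟩ := hE x.g y.g
  have h1 : Function.Semiconj (fun z : GG Γ φ => z.g) (fun z : GG Γ φ => z⁻¹ * y⁻¹ * z * y)
      (fun z : Γ => z⁻¹ * y.g⁻¹ * z * y.g) := fun z => rfl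
  have h2 : ((fun z : GG Γ φ => z⁻¹ * y⁻¹ * z * y)^[n0] x).g = 1 :=
    (h1.iterate_right n0 x).trans h0
  obtain ⟨n1, hn1⟩ := hU y.g⁻¹
  obtain ⟨n2, hn2⟩ := hU y.g
  change (v y.g⁻¹ - 1) ^ n1 = 0 at hn1
  change (v y.g - 1) ^ n2 = 0 at hn2
  set z0 := (fun z : GG Γ φ => z⁻¹ * y⁻¹ * z * y)^[n0] x with hz0
  have key : ∀ m, ((fun z : GG Γ φ => z⁻¹ * y⁻¹ * z * y)^[m] z0).s = (v y.g⁻¹ - 1) ^ m * z0.s ∧
      ((fun z : GG Γ φ => z⁻¹ * y⁻¹ * z * y)^[m] z0).d = z0.d * (v y.g - 1) ^ m ∧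
      ((fun z : GG Γ φ => z⁻¹ * y⁻¹ * z * y)^[m] z0).g = 1 := by
    intro m
    induction m with
    | zero => simp [h2]
    | succ m ih =>
      rw [Function.iterate_succ_apply']
      obtain ⟨i1, i2, i3⟩ := ih
      obtain ⟨j1, j2, j3⟩ := comm_ker _ y i3
      refine ⟨?_, ?_, j3⟩
      · rw [j1, i1, ← mul_assoc, ← pow_succ']
      · rw [j2, i2, mul_assoc, ← pow_succ]
  obtain ⟨k1, k2, k3⟩ := key (n1 + n2)
  refine ⟨(n1 + n2).succ + n0, ?_⟩
  rw [Function.iterate_add_apply, Function.iterate_succ_apply']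
  apply comm_corner _ y k3
  · rw [k1, pow_add, hn1, zero_mul, zero_mul]
  · rw [k2, pow_add, hn2, mul_zero, mul_zero]

theorem conj_g (y a : GG Γ φ) : (y * a * y⁻¹).g = y.g * a.g * y.g⁻¹ := rfl

theorem conj_ker (y a : GG Γ φ) (ha : a.g = 1) :
    (y * a * y⁻¹).s = v y.g * a.s ∧ (y * a * y⁻¹).d = a.d * v y.g⁻¹ := by
  constructor
  · simp only [mul_s, mul_g, inv_s, ha, mul_one, mul_neg, ← mul_assoc, v_mul_inv, one_mul]
    abel
  · simp only [mul_d, inv_d, inv_g, ha, v_one, mul_one]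
    noncomm_ring

theorem conj_ker2 (y a : GG Γ φ) (ha : a.g = 1) (hd : a.d = 0) :
    (y * a * y⁻¹).c = a.c + φ (y.d * a.s) := by
  simp only [mul_c, mul_d, inv_c, inv_s, ha, hd, v_one, mul_one, mul_neg, add_zero, map_neg]
  rw [mul_assoc y.d]
  ring

section order

variable (Γ φ) (C : Set S)

/-- The positive cone of a total order. -/
def QQ : Set (GG Γ φ) := {a | v a.g - 1 ∈ C ∨ (a.g = 1 ∧ (a.d ∈ C ∨ (a.d = 0 ∧
  (a.s ∈ C ∨ (a.s = 0 ∧ 0 < a.c)))))}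

/-- The positive cone of a partial order. -/
def PP (ξ : S) : Set (GG Γ φ) := {a | a.g = 1 ∧ a.d = 0 ∧ (∃ t, a.s = t * ξ) ∧
  (0 < a.c ∨ (a.c = 0 ∧ -a.s ∈ C))}

variable {C} (h0 : (0 : S) ∉ C) (hadd : ∀ a ∈ C, ∀ b ∈ C, a + b ∈ C)
  (htot : ∀ a, a ≠ 0 → a ∈ C ∨ -a ∈ C) (hl : ∀ u : Γ, ∀ a ∈ C, v u * a ∈ C)
  (hr : ∀ u : Γ, ∀ a ∈ C, a * v u ∈ C)

include hadd hr in
theorem QQ_mul : ∀ a ∈ QQ Γ φ C, ∀ b ∈ QQ Γ φ C, a * b ∈ QQ Γ φ C := by
  rintro a (ha | ⟨ha, ha'⟩) b (hb | ⟨hb, hb'⟩)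
  · left
    have h : v (a * b).g - 1 = (v a.g - 1) * v b.g + (v b.g - 1) := by
      rw [mul_g, v_mul]; noncomm_ring
    rw [h]
    exact hadd _ (hr _ _ ha) _ hb
  · left
    rw [mul_g, hb, mul_one]; exact ha
  · left
    rw [mul_g, ha, one_mul]; exact hb
  · right
    refine ⟨by rw [mul_g, ha, hb, mul_one], ?_⟩
    have e1 : (a * b).d = a.d + b.d := by rw [mul_d, hb, v_one, mul_one]
    have e2 : (a * b).s = a.s + b.s := by rw [mul_s, ha, v_one, one_mul]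
    rcases ha' with ha' | ⟨ha', ha''⟩ <;> rcases hb' with hb' | ⟨hb', hb''⟩
    · left; rw [e1]; exact hadd _ ha' _ hb'
    · left; rw [e1, hb', add_zero]; exact ha'
    · left; rw [e1, ha', zero_add]; exact hb'
    · right
      refine ⟨by rw [e1, ha', hb', add_zero], ?_⟩
      have e3 : (a * b).c = a.c + b.c := by rw [mul_c, ha', zero_mul, map_zero, add_zero]
      rcases ha'' with ha'' | ⟨h1, h2⟩ <;> rcases hb'' with hb'' | ⟨h3, h4⟩
      · left; rw [e2]; exact hadd _ ha'' _ hb''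
      · left; rw [e2, h3, add_zero]; exact ha''
      · left; rw [e2, h1, zero_add]; exact hb''
      · right
        refine ⟨by rw [e2, h1, h3, add_zero], ?_⟩
        rw [e3]; exact add_pos h2 h4

include hl hr in
theorem QQ_conj : ∀ a ∈ QQ Γ φ C, ∀ y : GG Γ φ, y * a * y⁻¹ ∈ QQ Γ φ C := by
  rintro a (ha | ⟨ha, ha'⟩) y
  · left
    have h : v (y * a * y⁻¹).g - 1 = v y.g * (v a.g - 1) * v y.g⁻¹ := by
      rw [conj_g, v_mul, v_mul, mul_sub, sub_mul, mul_one, v_mul_inv]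
    rw [h]
    exact hr _ _ (hl _ _ ha)
  · right
    obtain ⟨e1, e2⟩ := conj_ker y a ha
    refine ⟨by rw [conj_g, ha, mul_one, mul_inv_cancel], ?_⟩
    rcases ha' with ha' | ⟨ha', ha''⟩
    · left; rw [e2]; exact hr _ _ ha'
    · right
      refine ⟨by rw [e2, ha', zero_mul], ?_⟩
      rcases ha'' with ha'' | ⟨h1, h2⟩
      · left; rw [e1]; exact hl _ _ ha''
      · right
        refine ⟨by rw [e1, h1, mul_zero], ?_⟩
        rw [conj_ker2 y a ha ha', h1, mul_zero, map_zero, add_zero]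
        exact h2

include h0 in
theorem QQ_one : (1 : GG Γ φ) ∉ QQ Γ φ C := by
  rintro (h | ⟨_, h | ⟨_, h | ⟨_, h⟩⟩⟩)
  · rw [one_g, v_one, sub_self] at h; exact h0 h
  · exact h0 h
  · exact h0 h
  · exact lt_irrefl _ h

include htot hl in
theorem QQ_total : ∀ a : GG Γ φ, a ≠ 1 → a ∈ QQ Γ φ C ∨ a⁻¹ ∈ QQ Γ φ C := by
  intro a ha
  by_cases h1 : a.g = 1
  · by_cases h2 : a.d = 0
    · by_cases h3 : a.s = 0
      · have h4 : a.c ≠ 0 := by
          intro h4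
          apply ha
          ext
          · rw [h3, one_s]
          · rw [h4, one_c]
          · rw [h2, one_d]
          · rw [h1, one_g]
        rcases lt_or_gt_of_ne h4 with h5 | h5
        · right; right
          refine ⟨by rw [inv_g, h1, inv_one], Or.inr ⟨by rw [inv_d, h2]; simp, Or.inr
            ⟨by rw [inv_s, h3]; simp, ?_⟩⟩⟩
          rw [inv_c, h2, h3, mul_zero, map_zero, add_zero]
          exact neg_pos.mpr h5
        · left; right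
          exact ⟨h1, Or.inr ⟨h2, Or.inr ⟨h3, h5⟩⟩⟩
      · rcases htot _ h3 with h5 | h5
        · left; right
          exact ⟨h1, Or.inr ⟨h2, Or.inl h5⟩⟩
        · right; right
          refine ⟨by rw [inv_g, h1, inv_one], Or.inr ⟨by rw [inv_d, h2]; simp, Or.inl ?_⟩⟩
          rw [inv_s, h1, inv_one, v_one, one_mul]
          exact h5
    · rcases htot _ h2 with h5 | h5
      · left; right
        exact ⟨h1, Or.inl h5⟩
      · right; right
        refine ⟨by rw [inv_g, h1, inv_one], Or.inl ?_⟩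
        rw [inv_d, h1, inv_one, v_one, mul_one]
        exact h5
  · have h2 : v a.g - 1 ≠ 0 := by
      intro h
      rw [sub_eq_zero] at h
      apply h1
      apply Subtype.ext
      apply Units.ext
      exact h
    rcases htot _ h2 with h5 | h5
    · left; left; exact h5
    · right; left
      have h6 : v (a⁻¹).g - 1 = v a.g⁻¹ * -(v a.g - 1) := by
        rw [inv_g, mul_neg, mul_sub, v_inv_mul, mul_one, neg_sub]
      rw [h6]
      exact hl _ _ h5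

variable (ξ : S)

include hadd in
theorem PP_mul : ∀ a ∈ PP Γ φ C ξ, ∀ b ∈ PP Γ φ C ξ, a * b ∈ PP Γ φ C ξ := by
  rintro a ⟨a1, a2, ⟨t, a3⟩, a4⟩ b ⟨b1, b2, ⟨t', b3⟩, b4⟩
  have e2 : (a * b).s = a.s + b.s := by rw [mul_s, a1, v_one, one_mul]
  have e3 : (a * b).c = a.c + b.c := by rw [mul_c, a2, zero_mul, map_zero, add_zero]
  refine ⟨by rw [mul_g, a1, b1, mul_one], by rw [mul_d, a2, b2, zero_mul, add_zero],
    ⟨t + t', by rw [e2, a3, b3, add_mul]⟩, ?_⟩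
  rw [e2, e3]
  rcases a4 with a4 | ⟨a4, a5⟩ <;> rcases b4 with b4 | ⟨b4, b5⟩
  · left; exact add_pos a4 b4
  · left; rw [b4, add_zero]; exact a4
  · left; rw [a4, zero_add]; exact b4
  · right
    refine ⟨by rw [a4, b4, add_zero], ?_⟩
    rw [neg_add]
    exact hadd _ a5 _ b5

include hl in
theorem PP_conj (hφ : ∀ t, φ (t * ξ) = 0) :
    ∀ a ∈ PP Γ φ C ξ, ∀ y : GG Γ φ, y * a * y⁻¹ ∈ PP Γ φ C ξ := by
  rintro a ⟨a1, a2, ⟨t, a3⟩, a4⟩ y
  obtain ⟨e1, e2⟩ := conj_ker y a a1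
  have e3 := conj_ker2 y a a1 a2
  rw [a3, ← mul_assoc, hφ, add_zero] at e3
  refine ⟨by rw [conj_g, a1, mul_one, mul_inv_cancel], by rw [e2, a2, zero_mul],
    ⟨v y.g * t, by rw [e1, a3, mul_assoc]⟩, ?_⟩
  rw [e1, e3]
  rcases a4 with a4 | ⟨a4, a5⟩
  · left; exact a4
  · right
    refine ⟨a4, ?_⟩
    rw [← mul_neg]
    exact hl _ _ a5

include h0 in
theorem PP_one : (1 : GG Γ φ) ∉ PP Γ φ C ξ := by
  rintro ⟨_, _, _, h | ⟨_, h⟩⟩
  · exact lt_irrefl _ h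
  · rw [one_s, neg_zero] at h
    exact h0 h

end order

/-- An element of the abelian normal subgroup. -/
def el (Γ : Subgroup Sˣ) (φ : S →ₗ[ℚ] ℚ) (s : S) (c : ℚ) : GG Γ φ := ⟨s, c, 0, 1⟩

theorem el_mul (s s' : S) (c c' : ℚ) : el Γ φ s c * el Γ φ s' c' = el Γ φ (s + s') (c + c') := by
  ext
  · simp only [el, mul_s, v_one, one_mul]
  · simp only [el, mul_c, zero_mul, map_zero, add_zero]
  · simp only [el, mul_d, zero_mul, add_zero]
  · simp only [el, mul_g, mul_one]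

theorem el_zero : el Γ φ 0 0 = 1 := rfl

theorem el_inv (s : S) (c : ℚ) : (el Γ φ s c)⁻¹ = el Γ φ (-s) (-c) := by
  rw [inv_eq_iff_mul_eq_one, el_mul, add_neg_cancel, add_neg_cancel, el_zero]

theorem el_conj (y : GG Γ φ) (s : S) (c : ℚ) :
    y * el Γ φ s c * y⁻¹ = el Γ φ (v y.g * s) (c + φ (y.d * s)) := by
  obtain ⟨e1, e2⟩ := conj_ker y (el Γ φ s c) rfl
  have e3 := conj_ker2 y (el Γ φ s c) rfl rfl
  refine GG.ext ?_ ?_ ?_ ?_
  · rw [e1]; rfl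
  · rw [e3]; rfl
  · rw [e2]; exact zero_mul _
  · change y.g * 1 * y.g⁻¹ = 1
    rw [mul_one, mul_inv_cancel]

/-- The sum of a list of elements of the group. -/
def lsum (l : List Γ) : S := (l.map v).sum

theorem add_list (Q : Set (GG Γ φ)) (hQ : ∀ a ∈ Q, ∀ b ∈ Q, a * b ∈ Q) (e : S)
    (he : ∀ u : Γ, el Γ φ (v u * e) 0 ∈ Q) (l : List Γ) (s : S) (c : ℚ) (h : el Γ φ s c ∈ Q) :
    el Γ φ (s + lsum l * e) c ∈ Q := by
  induction l generalizing s with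
  | nil =>
    unfold lsum
    rw [List.map_nil, List.sum_nil, zero_mul, add_zero]; exact h
  | cons u l ih =>
    have h1 := hQ _ h _ (he u)
    rw [el_mul, add_zero] at h1
    have h2 := ih _ h1
    unfold lsum at h2 ⊢
    rw [List.map_cons, List.sum_cons, add_mul, ← add_assoc]
    exact h2

/-- The abstract counterexample, with `1` in the cone. -/
theorem core_aux (C : Set S) (g₁ : Γ) (l : List Γ)
    (hE : ∀ x y : Γ, ∃ n, (fun z : Γ => z⁻¹ * y⁻¹ * z * y)^[n] x = 1)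
    (hU : ∀ u : Γ, ∃ n, (((u : Sˣ) : S) - 1) ^ n = 0)
    (h0 : (0 : S) ∉ C) (hadd : ∀ a ∈ C, ∀ b ∈ C, a + b ∈ C)
    (htot : ∀ a, a ≠ 0 → a ∈ C ∨ -a ∈ C)
    (hl : ∀ u : Γ, ∀ a ∈ C, v u * a ∈ C) (hr : ∀ u : Γ, ∀ a ∈ C, a * v u ∈ C)
    (hX : ∀ s : S, s * (v g₁ + lsum l) ≠ 1) (h1 : (1 : S) ∈ C) :
    ¬ (∀ (G : Type) [Group G],
      (∀ x y : G, ∃ n : ℕ, (fun z : G => z⁻¹ * y⁻¹ * z * y)^[n] x = 1) →
      (∃ Q : Set G, (∀ a ∈ Q, ∀ b ∈ Q, a * b ∈ Q) ∧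
          (∀ a ∈ Q, ∀ g : G, g * a * g⁻¹ ∈ Q) ∧ (1 : G) ∉ Q ∧
          (∀ a : G, a ≠ 1 → a ∈ Q ∨ a⁻¹ ∈ Q)) →
      ∀ P : Set G, (∀ a ∈ P, ∀ b ∈ P, a * b ∈ P) →
        (∀ a ∈ P, ∀ g : G, g * a * g⁻¹ ∈ P) → (1 : G) ∉ P →
        ∃ Q : Set G, P ⊆ Q ∧ (∀ a ∈ Q, ∀ b ∈ Q, a * b ∈ Q) ∧
          (∀ a ∈ Q, ∀ g : G, g * a * g⁻¹ ∈ Q) ∧ (1 : G) ∉ Q ∧
          (∀ a : G, a ≠ 1 → a ∈ Q ∨ a⁻¹ ∈ Q)) := by
  set ξ := v g₁ + lsum l with hξ
  -- a functional vanishing on the left ideal generated by `ξ`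
  obtain ⟨φ, hφ, hφ1⟩ : ∃ φ : S →ₗ[ℚ] ℚ, (∀ t, φ (t * ξ) = 0) ∧ φ 1 = 1 := by
    have h2 : (1 : S) ∉ LinearMap.range (LinearMap.mulRight ℚ ξ) := by
      rintro ⟨s, hs⟩
      exact hX s hs
    obtain ⟨f, hf, hf2⟩ := Submodule.exists_le_ker_of_notMem h2
    refine ⟨(f 1)⁻¹ • f, ?_, ?_⟩
    · intro t
      have h3 : f (t * ξ) = 0 := hf2 ⟨t, rfl⟩
      rw [LinearMap.smul_apply, h3, smul_zero]
    · rw [LinearMap.smul_apply, smul_eq_mul, inv_mul_cancel₀ hf]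
  -- the sum is positive
  have hξC : ξ ∈ C := by
    have h2 : ∀ (l : List Γ) (s : S), s ∈ C → s + lsum l ∈ C := by
      intro l
      induction l with
      | nil =>
        intro s hs
        unfold lsum
        rw [List.map_nil, List.sum_nil, add_zero]; exact hs
      | cons u l ih =>
        intro s hs
        have h3 : v u ∈ C := by
          have := hl u 1 h1
          rwa [mul_one] at this
        have h4 := ih _ (hadd _ hs _ h3)
        unfold lsum at h4 ⊢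
        rw [List.map_cons, List.sum_cons, ← add_assoc]
        exact h4
    apply h2
    have := hl g₁ 1 h1
    rwa [mul_one] at this
  intro H
  obtain ⟨Q, hPQ, hQ1, hQ2, hQ3, hQ4⟩ := H (GG Γ φ) (engel_GG hE hU)
    ⟨QQ Γ φ C, QQ_mul Γ φ hadd hr, QQ_conj Γ φ hl hr, QQ_one Γ φ h0, QQ_total Γ φ htot hl⟩
    (PP Γ φ C ξ) (PP_mul Γ φ hadd ξ) (PP_conj Γ φ hl ξ hφ) (PP_one Γ φ h0 ξ)
  have hne : el Γ φ 1 0 ≠ 1 := by
    intro h
    have h2 : (1 : S) = 0 := congrArg GG.s h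
    rw [h2] at h1
    exact h0 h1
  rcases hQ4 _ hne with h | h
  · have he : ∀ u : Γ, el Γ φ (v u * 1) 0 ∈ Q := by
      intro u
      have := hQ2 _ h ⟨0, 0, 0, u⟩
      rw [el_conj] at this
      simpa using this
    have h2 : el Γ φ ξ 0 ∈ Q := by
      have h3 := add_list Q hQ1 1 he l _ _ (he g₁)
      rwa [mul_one, mul_one] at h3
    have h3 : el Γ φ (-ξ) 0 ∈ Q := by
      apply hPQ
      refine ⟨rfl, rfl, ⟨-1, ?_⟩, Or.inr ⟨rfl, ?_⟩⟩
      · change -ξ = -1 * ξ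
        rw [neg_one_mul]
      · change - -ξ ∈ C
        rw [neg_neg]; exact hξC
    have h4 := hQ1 _ h2 _ h3
    rw [el_mul, add_neg_cancel, add_zero, el_zero] at h4
    exact hQ3 h4
  · rw [el_inv, neg_zero] at h
    have he : ∀ u : Γ, el Γ φ (v u * -1) 0 ∈ Q := by
      intro u
      have := hQ2 _ h ⟨0, 0, 0, u⟩
      rw [el_conj] at this
      simpa using this
    have h2 : el Γ φ (v g₁ * -1) (-1) ∈ Q := by
      have := hQ2 _ h ⟨0, 0, 1, g₁⟩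
      rw [el_conj] at this
      simp only [one_mul, map_neg, hφ1, zero_add] at this
      exact this
    have h3 : el Γ φ (-ξ) (-1) ∈ Q := by
      have h4 := add_list Q hQ1 (-1) he l _ _ h2
      have h5 : v g₁ * -1 + lsum l * -1 = -ξ := by rw [hξ]; noncomm_ring
      rwa [h5] at h4
    have h4 : el Γ φ ξ 1 ∈ Q := by
      apply hPQ
      refine ⟨rfl, rfl, ⟨1, ?_⟩, Or.inl ?_⟩
      · change ξ = 1 * ξ
        rw [one_mul]
      · change (0 : ℚ) < 1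
        norm_num
    have h5 := hQ1 _ h3 _ h4
    rw [el_mul, neg_add_cancel, neg_add_cancel, el_zero] at h5
    exact hQ3 h5

/-- The counterexample. -/
theorem main :
    ¬ (∀ (G : Type) [Group G],
      (∀ x y : G, ∃ n : ℕ, (fun z : G => z⁻¹ * y⁻¹ * z * y)^[n] x = 1) →
      (∃ Q : Set G, (∀ a ∈ Q, ∀ b ∈ Q, a * b ∈ Q) ∧
          (∀ a ∈ Q, ∀ g : G, g * a * g⁻¹ ∈ Q) ∧ (1 : G) ∉ Q ∧
          (∀ a : G, a ≠ 1 → a ∈ Q ∨ a⁻¹ ∈ Q)) →
      ∀ P : Set G, (∀ a ∈ P, ∀ b ∈ P, a * b ∈ P) →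
        (∀ a ∈ P, ∀ g : G, g * a * g⁻¹ ∈ P) → (1 : G) ∉ P →
        ∃ Q : Set G, P ⊆ Q ∧ (∀ a ∈ Q, ∀ b ∈ Q, a * b ∈ Q) ∧
          (∀ a ∈ Q, ∀ g : G, g * a * g⁻¹ ∈ Q) ∧ (1 : G) ∉ Q ∧
          (∀ a : G, a ≠ 1 → a ∈ Q ∨ a⁻¹ ∈ Q)) := by
  obtain ⟨S, _, _, Γ, C, g₁, l, hE, hU, h0, hadd, htot, hl, hr, hX⟩ := Tens.summary
  have hne : (1 : S) ≠ 0 := by
    intro h
    apply hX 0
    rw [zero_mul, h]
  rcases htot 1 hne with h1 | h1
  · exact core_aux C g₁ l hE hU h0 hadd htot hl hr hX h1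
  · refine core_aux {a | -a ∈ C} g₁ l hE hU ?_ ?_ ?_ ?_ ?_ hX h1
    · intro h
      change -(0 : S) ∈ C at h
      rw [neg_zero] at h
      exact h0 h
    · intro a ha b hb
      change -(a + b) ∈ C
      rw [neg_add]
      exact hadd _ ha _ hb
    · intro a ha
      rcases htot a ha with h | h
      · right
        change - -a ∈ C
        rw [neg_neg]; exact h
      · left; exact h
    · intro u a ha
      change -(v u * a) ∈ C
      rw [← mul_neg]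
      exact hl _ _ ha
    · intro u a ha
      change -(a * v u) ∈ C
      rw [← neg_mul]
      exact hr _ _ ha

end Pool.Agent.Helper824.Core
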