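import Mathlib

set_option autoImplicit false

namespace Pool.Agent.Helper824.Filt

variable {S : Type} [Ring S] [Algebra ℚ S]

/-- The filtration by the powers of a subspace. -/
def F (M : Submodule ℚ S) (n : ℕ) : Submodule ℚ S := ⨆ k, M ^ (n + k)

variable (M : Submodule ℚ S)

theorem F_mul (m n : ℕ) : F M m * F M n ≤ F M (m + n) := by
  unfold F
  rw [Submodule.iSup_mul]
  apply iSup_le
  intro i
  rw [Submodule.mul_iSup]
  apply iSup_le
  intro j
  rw [← pow_add]
  have : m + i + (n + j) = m + n + (i + j) := by ring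
  rw [this]
  exact le_iSup (fun k => M ^ (m + n + k)) (i + j)

theorem mul_mem_F {m n : ℕ} {a b : S} (ha : a ∈ F M m) (hb : b ∈ F M n) : a * b ∈ F M (m + n) :=
  F_mul M m n (Submodule.mul_mem_mul ha hb)

theorem one_mem_F : (1 : S) ∈ F M 0 := by
  have h : M ^ (0 + 0) ≤ F M 0 := le_iSup (fun k => M ^ (0 + k)) 0
  apply h
  rw [add_zero, pow_zero]
  exact Submodule.one_le.mp le_rfl

theorem F_le {m n : ℕ} (h : m ≤ n) : F M n ≤ F M m := by
  obtain ⟨c, rfl⟩ := Nat.exists_eq_add_of_le h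
  unfold F
  apply iSup_le
  intro i
  rw [add_assoc]
  exact le_iSup (fun k => M ^ (m + k)) (c + i)

theorem pow_le_F (n : ℕ) : M ^ n ≤ F M n := le_iSup (fun k => M ^ (n + k)) 0

theorem F_eq_bot {N : ℕ} (hN : M ^ N = ⊥) : F M N = ⊥ := by
  rw [eq_bot_iff]
  unfold F
  apply iSup_le
  intro i
  rw [pow_add, hN, Submodule.bot_mul]

theorem pow_mem_F {a : S} {m : ℕ} (ha : a ∈ F M m) (n : ℕ) : a ^ n ∈ F M (m * n) := by
  induction n with
  | zero => rw [pow_zero, mul_zero]; exact one_mem_F M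
  | succ n ih => rw [pow_succ, mul_add, mul_one]; exact mul_mem_F M ih ha

theorem pow_eq_zero_F {N : ℕ} (hN : M ^ N = ⊥) {a : S} (ha : a ∈ F M 1) : a ^ N = 0 := by
  have := pow_mem_F M ha N
  rw [one_mul, F_eq_bot M hN] at this
  exact this

theorem inv_mem_F {N : ℕ} (hN : M ^ N = ⊥) (u : Sˣ) (hu : (u : S) - 1 ∈ F M 1) :
    ((u⁻¹ : Sˣ) : S) ∈ F M 0 := by
  have h1 : (u : S) * ∑ i ∈ Finset.range N, (-((u : S) - 1)) ^ i = 1 := by
    have h2 := mul_neg_geom_sum (-((u : S) - 1)) N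
    rw [neg_pow, pow_eq_zero_F M hN hu, mul_zero, sub_zero] at h2
    have h3 : (1 : S) - -((u : S) - 1) = u := by abel
    rw [h3] at h2
    exact h2
  have h4 : ((u⁻¹ : Sˣ) : S) = ∑ i ∈ Finset.range N, (-((u : S) - 1)) ^ i := by
    rw [← Units.inv_mul_cancel_left u (∑ i ∈ Finset.range N, (-((u : S) - 1)) ^ i), h1, mul_one]
  rw [h4]
  apply Submodule.sum_mem
  intro i _
  have h5 := pow_mem_F M (Submodule.neg_mem _ hu) i
  exact F_le M (Nat.zero_le _) h5

theorem comm_sub_one (z y : Sˣ) : ((z⁻¹ * y⁻¹ * z * y : Sˣ) : S) - 1 =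
    ((z⁻¹ : Sˣ) : S) * ((y⁻¹ : Sˣ) : S) *
      (((z : S) - 1) * ((y : S) - 1) - ((y : S) - 1) * ((z : S) - 1)) := by
  have h1 : ((z : S) - 1) * ((y : S) - 1) - ((y : S) - 1) * ((z : S) - 1) = z * y - y * z := by
    noncomm_ring
  have h2 : ((z⁻¹ : Sˣ) : S) * ((y⁻¹ : Sˣ) : S) * ((y : S) * (z : S)) = 1 := by
    rw [mul_assoc, Units.inv_mul_cancel_left, Units.inv_mul]
  rw [h1, mul_sub, h2]
  push_cast
  simp only [mul_assoc]

theorem engel {N : ℕ} (hN : M ^ N = ⊥) (x y : Sˣ) (hx : (x : S) - 1 ∈ F M 1)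
    (hy : (y : S) - 1 ∈ F M 1) : (fun z : Sˣ => z⁻¹ * y⁻¹ * z * y)^[N] x = 1 := by
  have key : ∀ n, (((fun z : Sˣ => z⁻¹ * y⁻¹ * z * y)^[n] x : Sˣ) : S) - 1 ∈ F M (1 + n) := by
    intro n
    induction n with
    | zero => exact hx
    | succ n ih =>
      rw [Function.iterate_succ_apply']
      set z := (fun z : Sˣ => z⁻¹ * y⁻¹ * z * y)^[n] x with hz
      have h1 : (z : S) - 1 ∈ F M 1 := F_le M (by omega) ih
      have h2 := inv_mem_F M hN z h1
      have h3 := inv_mem_F M hN y hy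
      have h4 : ((z : S) - 1) * ((y : S) - 1) ∈ F M (1 + (n + 1)) := by
        have := mul_mem_F M ih hy
        have e : 1 + n + 1 = 1 + (n + 1) := by ring
        rwa [e] at this
      have h5 : ((y : S) - 1) * ((z : S) - 1) ∈ F M (1 + (n + 1)) := by
        have := mul_mem_F M hy ih
        have e : 1 + (1 + n) = 1 + (n + 1) := by ring
        rwa [e] at this
      change ((z⁻¹ * y⁻¹ * z * y : Sˣ) : S) - 1 ∈ _
      rw [comm_sub_one]
      have h6 := mul_mem_F M (mul_mem_F M h2 h3) (Submodule.sub_mem _ h4 h5)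
      simpa using h6
  have h := F_le M (show N ≤ 1 + N by omega) (key N)
  rw [F_eq_bot M hN, Submodule.mem_bot, sub_eq_zero] at h
  exact Units.ext h

/-- The span of finitely many elements all of whose long products vanish is nilpotent. -/
theorem span_pow_eq_bot {β : Type} (f : β → S) (N : ℕ)
    (h : ∀ p : Fin N → β, ((List.ofFn p).map f).prod = 0) :
    (Submodule.span ℚ (Set.range f)) ^ N = ⊥ := by
  rw [Submodule.span_pow, Submodule.span_eq_bot]
  intro a ha
  rw [Set.mem_pow] at ha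
  obtain ⟨g, rfl⟩ := ha
  choose p hp using fun i => (g i).2
  have h1 := h p
  rw [List.map_ofFn] at h1
  rw [← h1]
  congr 2
  funext i
  exact (hp i).symm

end Pool.Agent.Helper824.Filt
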