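import Mathlib

set_option autoImplicit false

namespace Pool.Agent.Helper824.GS

open Module

section Free

variable (K : Type) [Field K] (α : Type)

/-- The free associative algebra, as a monoid algebra. -/
abbrev FA := MonoidAlgebra K (FreeMonoid α)

variable {K α} in
/-- The monomial attached to a word. -/
noncomputable def mon (w : FreeMonoid α) : FA K α := MonoidAlgebra.single w 1

theorem mon_mul (w w' : FreeMonoid α) : (mon w : FA K α) * mon w' = mon (w * w') := by
  simp [mon, MonoidAlgebra.single_mul_single]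

theorem mon_one : (mon 1 : FA K α) = 1 := rfl

/-- The homogeneous component of degree `n`. -/
noncomputable def V (n : ℕ) : Submodule K (FA K α) :=
  Submodule.span K (mon '' {w : FreeMonoid α | w.length = n})

theorem mon_mem_V (w : FreeMonoid α) : (mon w : FA K α) ∈ V K α w.length :=
  Submodule.subset_span ⟨w, rfl, rfl⟩

theorem V_mul_V (m n : ℕ) : V K α m * V K α n = V K α (m + n) := by
  unfold V
  rw [Submodule.span_mul_span]
  congr 1
  ext f
  constructor
  · rintro ⟨_, ⟨w, hw, rfl⟩, _, ⟨w', hw', rfl⟩, rfl⟩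
    refine ⟨w * w', ?_, (mon_mul K α w w').symm⟩
    simp only [Set.mem_ofPred_eq] at *
    rw [FreeMonoid.length_mul, hw, hw']
  · rintro ⟨w, hw, rfl⟩
    simp only [Set.mem_ofPred_eq] at hw
    refine ⟨mon (FreeMonoid.ofList (w.toList.take m)), ⟨_, ?_, rfl⟩,
      mon (FreeMonoid.ofList (w.toList.drop m)), ⟨_, ?_, rfl⟩, ?_⟩
    · simp [FreeMonoid.length] at *
      omega
    · simp [FreeMonoid.length] at *
      omega
    · simp only [mon_mul]
      rw [← FreeMonoid.ofList_append, List.take_append_drop]
      rfl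

theorem V_zero : V K α 0 = 1 := by
  unfold V
  rw [Submodule.one_eq_span]
  congr 1
  ext f
  constructor
  · rintro ⟨w, hw, rfl⟩
    simp only [Set.mem_ofPred_eq, FreeMonoid.length_eq_zero] at hw
    subst hw
    rfl
  · rintro rfl
    exact ⟨1, by simp, rfl⟩

/-- The projection to the homogeneous component of degree `n`. -/
noncomputable def pr (n : ℕ) : FA K α →ₗ[K] FA K α :=
  (MonoidAlgebra.basis (FreeMonoid α) K).constr K
    (fun w => if w.length = n then mon w else 0)

theorem pr_mon (n : ℕ) (w : FreeMonoid α) :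
    pr K α n (mon w) = if w.length = n then mon w else 0 := by
  have := (MonoidAlgebra.basis (FreeMonoid α) K).constr_basis K
    (fun w => if w.length = n then (mon w : FA K α) else 0) w
  rw [MonoidAlgebra.basis_apply] at this
  exact this

/-- induction principle -/
theorem FA_induction {P : FA K α → Prop} (h0 : P 0) (hadd : ∀ f g, P f → P g → P (f + g))
    (hsmul : ∀ (c : K) f, P f → P (c • f)) (hmon : ∀ w, P (mon w)) (f : FA K α) : P f := by
  have : f ∈ Submodule.span K (Set.range (MonoidAlgebra.basis (FreeMonoid α) K)) := by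
    rw [Basis.span_eq]; trivial
  induction this using Submodule.span_induction with
  | mem x h =>
    obtain ⟨w, rfl⟩ := h
    rw [MonoidAlgebra.basis_apply]
    exact hmon w
  | zero => exact h0
  | add x y _ _ hx hy => exact hadd _ _ hx hy
  | smul a x _ hx => exact hsmul _ _ hx

theorem linear_ext {M : Type*} [AddCommMonoid M] [Module K M] {f g : FA K α →ₗ[K] M}
    (h : ∀ w, f (mon w) = g (mon w)) : f = g := by
  apply (MonoidAlgebra.basis (FreeMonoid α) K).ext
  intro w
  rw [MonoidAlgebra.basis_apply]
  exact h w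

theorem pr_mem (n : ℕ) (f : FA K α) : pr K α n f ∈ V K α n := by
  induction f using FA_induction with
  | h0 => simp
  | hadd f g hf hg => rw [map_add]; exact add_mem hf hg
  | hsmul c f hf => rw [map_smul]; exact Submodule.smul_mem _ _ hf
  | hmon w =>
    rw [pr_mon]
    split_ifs with h
    · subst h; exact mon_mem_V K α w
    · exact zero_mem _

theorem pr_of_mem {m : ℕ} (n : ℕ) {f : FA K α} (hf : f ∈ V K α m) :
    pr K α n f = if m = n then f else 0 := by
  unfold V at hf
  induction hf using Submodule.span_induction with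
  | mem x h =>
    obtain ⟨w, hw, rfl⟩ := h
    simp only [Set.mem_ofPred_eq] at hw
    rw [pr_mon, hw]
  | zero => simp
  | add x y _ _ hx hy => rw [map_add, hx, hy]; split_ifs <;> simp
  | smul a x _ hx => rw [map_smul, hx]; split_ifs <;> simp

theorem pr_mul (n : ℕ) (f g : FA K α) :
    pr K α n (f * g) = ∑ p ∈ Finset.HasAntidiagonal.antidiagonal n, pr K α p.1 f * pr K α p.2 g := by
  induction f using FA_induction with
  | h0 => simp
  | hadd f f' hf hf' => simp only [add_mul, map_add, hf, hf', Finset.sum_add_distrib]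
  | hsmul c f hf => simp only [smul_mul_assoc, map_smul, hf, Finset.smul_sum]
  | hmon w =>
    induction g using FA_induction with
    | h0 => simp
    | hadd f f' hf hf' => simp only [mul_add, map_add, hf, hf', Finset.sum_add_distrib]
    | hsmul c f hf => simp only [mul_smul_comm, map_smul, hf, Finset.smul_sum]
    | hmon w' =>
      rw [mon_mul, pr_mon]
      simp only [pr_mon, FreeMonoid.length_mul]
      split_ifs with h
      · rw [Finset.sum_eq_single (w.length, w'.length)]
        · simp [mon_mul]
        · rintro ⟨a, b⟩ _ hab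
          by_cases h1 : w.length = a
          · by_cases h2 : w'.length = b
            · exact absurd (by rw [h1, h2]) hab
            · simp [h2]
          · simp [h1]
        · intro h'
          exact absurd (by simpa using h) h'
      · symm
        apply Finset.sum_eq_zero
        rintro ⟨a, b⟩ hab
        rw [Finset.HasAntidiagonal.mem_antidiagonal] at hab
        by_cases h1 : w.length = a
        · by_cases h2 : w'.length = b
          · exfalso; apply h; rw [h1, h2]; exact hab
          · simp [h2]
        · simp [h1]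

theorem iSup_V : (⨆ n, V K α n) = ⊤ := by
  rw [eq_top_iff]
  rintro f -
  induction f using FA_induction with
  | h0 => exact zero_mem _
  | hadd f g hf hg => exact add_mem hf hg
  | hsmul c f hf => exact Submodule.smul_mem _ _ hf
  | hmon w => exact Submodule.mem_iSup_of_mem _ (mon_mem_V K α w)

/-- every element is the sum of its components -/
theorem exists_sum_pr (f : FA K α) : ∃ N, ∀ M, N ≤ M → f = ∑ n ∈ Finset.range M, pr K α n f := by
  induction f using FA_induction with
  | h0 => exact ⟨0, fun M _ => by simp⟩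
  | hadd f g hf hg =>
    obtain ⟨N, hN⟩ := hf
    obtain ⟨N', hN'⟩ := hg
    refine ⟨max N N', fun M hM => ?_⟩
    simp only [map_add, Finset.sum_add_distrib]
    rw [← hN M (le_trans (le_max_left _ _) hM), ← hN' M (le_trans (le_max_right _ _) hM)]
  | hsmul c f hf =>
    obtain ⟨N, hN⟩ := hf
    refine ⟨N, fun M hM => ?_⟩
    simp only [map_smul, ← Finset.smul_sum]
    rw [← hN M hM]
  | hmon w =>
    refine ⟨w.length + 1, fun M hM => ?_⟩
    simp only [pr_mon]
    rw [Finset.sum_ite_eq]
    rw [if_pos]
    rw [Finset.mem_range]; omega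

end Free

section GS

variable {K : Type} [Field K] {α : Type}

theorem finrank_mul_le (M N : Submodule K (FA K α)) [FiniteDimensional K M]
    [FiniteDimensional K N] :
    finrank K ↥(M * N) ≤ finrank K M * finrank K N := by
  rw [← Submodule.mulMap_range, ← Module.finrank_tensorProduct (R := K)]
  exact LinearMap.finrank_range_le _

instance finiteDimensional_mul (M N : Submodule K (FA K α)) [FiniteDimensional K M]
    [FiniteDimensional K N] : FiniteDimensional K ↥(M * N) := by
  rw [← Submodule.mulMap_range]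
  infer_instance

theorem V_eq_span_range (n : ℕ) : V K α n =
    Submodule.span K (Set.range (fun w : List.Vector α n =>
      (mon (FreeMonoid.ofList w.toList) : FA K α))) := by
  unfold V
  congr 1
  ext f
  constructor
  · rintro ⟨w, hw, rfl⟩
    exact ⟨⟨w.toList, hw⟩, rfl⟩
  · rintro ⟨w, rfl⟩
    exact ⟨_, w.2, rfl⟩

theorem mon_linearIndependent : LinearIndependent K (mon : FreeMonoid α → FA K α) := by
  have := (MonoidAlgebra.basis (FreeMonoid α) K).linearIndependent
  exact this

theorem finrank_V [Fintype α] (n : ℕ) : finrank K (V K α n) = (Fintype.card α) ^ n := by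
  rw [V_eq_span_range, finrank_span_eq_card]
  · simp
  · apply mon_linearIndependent.comp
    intro a b h
    apply List.Vector.eq
    exact FreeMonoid.ofList.injective h

instance finiteDimensional_V [Fintype α] (n : ℕ) : FiniteDimensional K (V K α n) := by
  rw [V_eq_span_range]
  exact FiniteDimensional.span_of_finite K (Set.finite_range _)

/-- The degree `n` part of the two-sided ideal generated by relations, where the
relations of degree `i + 1` span `R (i + 1)`. -/
noncomputable def Idl (R : ℕ → Submodule K (FA K α)) : ℕ → Submodule K (FA K α)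
  | 0 => ⊥
  | (n + 1) => Idl R n * V K α 1 + ∑ i ∈ Finset.range (n + 1), V K α (n - i) * R (i + 1)

variable {R : ℕ → Submodule K (FA K α)}

theorem Idl_le_V (hR : ∀ i, R i ≤ V K α i) (n : ℕ) : Idl R n ≤ V K α n := by
  induction n with
  | zero => exact bot_le
  | succ n ih =>
    rw [Idl, Submodule.add_eq_sup]
    apply sup_le
    · rw [← V_mul_V]
      exact mul_le_mul' ih le_rfl
    · apply Finset.sum_induction _ (fun M => M ≤ V K α (n + 1))
      · intro a b ha hb; rw [Submodule.add_eq_sup]; exact sup_le ha hb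
      · rw [Submodule.zero_eq_bot]; exact bot_le
      · intro i hi
        rw [Finset.mem_range] at hi
        have : n + 1 = (n - i) + (i + 1) := by omega
        rw [this, ← V_mul_V]
        exact mul_le_mul' le_rfl (hR _)

theorem sum_le_of_le {ι : Type*} {s : Finset ι} {f : ι → Submodule K (FA K α)}
    {N : Submodule K (FA K α)} (h : ∀ i ∈ s, f i ≤ N) : ∑ i ∈ s, f i ≤ N := by
  apply Finset.sum_induction _ (fun M => M ≤ N)
  · intro a b ha hb; rw [Submodule.add_eq_sup]; exact sup_le ha hb
  · rw [Submodule.zero_eq_bot]; exact bot_le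
  · exact h

theorem le_sum_of_mem {ι : Type*} {s : Finset ι} {f : ι → Submodule K (FA K α)}
    {i : ι} (hi : i ∈ s) : f i ≤ ∑ i ∈ s, f i := by
  classical
  rw [← Finset.add_sum_erase _ _ hi, Submodule.add_eq_sup]
  exact le_sup_left

theorem Idl_mul_V_one (n : ℕ) : Idl R n * V K α 1 ≤ Idl R (n + 1) := by
  conv_rhs => rw [Idl]
  rw [Submodule.add_eq_sup]
  exact le_sup_left

theorem V_mul_R (n i : ℕ) (hi : 1 ≤ i) : V K α n * R i ≤ Idl R (n + i) := by
  obtain ⟨j, rfl⟩ : ∃ j, i = j + 1 := ⟨i - 1, by omega⟩
  rw [← add_assoc, Idl, Submodule.add_eq_sup]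
  refine le_trans ?_ le_sup_right
  have := le_sum_of_mem (f := fun i => V K α (n + j - i) * R (i + 1))
    (show j ∈ Finset.range (n + j + 1) by rw [Finset.mem_range]; omega)
  simpa using this

theorem Idl_mul_V (n k : ℕ) : Idl R n * V K α k ≤ Idl R (n + k) := by
  induction k with
  | zero => rw [V_zero, mul_one]; exact le_rfl
  | succ k ih =>
    rw [← V_mul_V, ← mul_assoc]
    refine le_trans (mul_le_mul' ih le_rfl) ?_
    exact Idl_mul_V_one _

theorem V_mul_Idl (k n : ℕ) : V K α k * Idl R n ≤ Idl R (k + n) := by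
  induction n with
  | zero =>
    rw [Idl, Submodule.mul_bot]
    exact bot_le
  | succ n ih =>
    rw [Idl, mul_add, Submodule.add_eq_sup]
    apply sup_le
    · rw [← mul_assoc]
      refine le_trans (mul_le_mul' ih le_rfl) ?_
      exact Idl_mul_V_one _
    · rw [Finset.mul_sum]
      apply sum_le_of_le
      intro i hi
      rw [Finset.mem_range] at hi
      rw [← mul_assoc, V_mul_V]
      have := V_mul_R (R := R) (k + (n - i)) (i + 1) (by omega)
      have e : k + (n - i) + (i + 1) = k + (n + 1) := by omega
      rwa [e] at this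

/-- A complement inside. -/
theorem exists_compl [Fintype α] {I W : Submodule K (FA K α)} [FiniteDimensional K W]
    (h : I ≤ W) :
    ∃ C : Submodule K (FA K α), C ≤ W ∧ W = I ⊔ C ∧ finrank K I + finrank K C = finrank K W := by
  obtain ⟨D, hD⟩ := Submodule.exists_isCompl I
  refine ⟨D ⊓ W, inf_le_right, ?_, ?_⟩
  · rw [← sup_inf_assoc_of_le D h, hD.sup_eq_top, top_inf_eq]
  · have : FiniteDimensional K I := Submodule.finiteDimensional_of_le h
    have : FiniteDimensional K ↥(D ⊓ W) := Submodule.finiteDimensional_of_le inf_le_right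
    have h1 := Submodule.finrank_sup_add_finrank_inf_eq I (D ⊓ W)
    have h2 : I ⊔ D ⊓ W = W := by rw [← sup_inf_assoc_of_le D h, hD.sup_eq_top, top_inf_eq]
    have h3 : I ⊓ (D ⊓ W) = ⊥ := by rw [← inf_assoc, hD.inf_eq_bot, bot_inf_eq]
    rw [h2, h3, finrank_bot] at h1
    omega

theorem finrank_sum_le {ι : Type*} (s : Finset ι) (f : ι → Submodule K (FA K α))
    (hf : ∀ i ∈ s, FiniteDimensional K (f i)) (N : Submodule K (FA K α))
    (hN : N = ∑ i ∈ s, f i) :
    FiniteDimensional K N ∧ finrank K N ≤ ∑ i ∈ s, finrank K (f i) := by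
  classical
  induction s using Finset.induction_on generalizing N with
  | empty =>
    rw [Finset.sum_empty, Submodule.zero_eq_bot] at hN
    subst hN
    exact ⟨inferInstance, by rw [finrank_bot]; exact Nat.zero_le _⟩
  | insert a s ha ih =>
    obtain ⟨h1, h2⟩ := ih (fun i hi => hf i (Finset.mem_insert_of_mem hi)) _ rfl
    have := hf a (Finset.mem_insert_self _ _)
    rw [Finset.sum_insert ha, Submodule.add_eq_sup] at hN
    subst hN
    rw [Finset.sum_insert ha]
    refine ⟨inferInstance, ?_⟩
    exact le_trans (Submodule.finrank_add_le_finrank_add_finrank _ _) (by omega)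

theorem finrank_Idl_succ [Fintype α] (hR : ∀ i, R i ≤ V K α i) (r : ℕ → ℕ)
    (hr : ∀ i, finrank K (R i) ≤ r i) (n : ℕ) :
    finrank K (Idl R (n + 1)) ≤ finrank K (Idl R n) * Fintype.card α +
      ∑ i ∈ Finset.range (n + 1),
        (finrank K (V K α (n - i)) - finrank K (Idl R (n - i))) * r (i + 1) := by
  have hfI : ∀ n, FiniteDimensional K (Idl R n) := fun n =>
    Submodule.finiteDimensional_of_le (Idl_le_V hR n)
  have hfR : ∀ n, FiniteDimensional K (R n) := fun n =>
    Submodule.finiteDimensional_of_le (hR n)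
  choose C hC1 hC2 hC3 using fun k => exists_compl (Idl_le_V hR k)
  have hfC : ∀ n, FiniteDimensional K (C n) := fun n =>
    Submodule.finiteDimensional_of_le (hC1 n)
  have key : Idl R (n + 1) ≤ Idl R n * V K α 1 +
      ∑ i ∈ Finset.range (n + 1), C (n - i) * R (i + 1) := by
    conv_lhs => rw [Idl]
    rw [Submodule.add_eq_sup]
    apply sup_le
    · rw [Submodule.add_eq_sup]; exact le_sup_left
    · apply sum_le_of_le
      intro i hi
      have hi' := Finset.mem_range.mp hi
      rw [hC2 (n - i), ← Submodule.add_eq_sup, add_mul, Submodule.add_eq_sup]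
      apply sup_le
      · rw [Submodule.add_eq_sup]
        refine le_trans ?_ le_sup_left
        refine le_trans (mul_le_mul' le_rfl (hR _)) ?_
        rw [← V_mul_V, ← mul_assoc]
        refine mul_le_mul' ?_ le_rfl
        have := Idl_mul_V (R := R) (n - i) i
        have e : n - i + i = n := by omega
        rwa [e] at this
      · rw [Submodule.add_eq_sup]
        refine le_trans ?_ le_sup_right
        exact le_sum_of_mem (f := fun i => C (n - i) * R (i + 1)) hi
  obtain ⟨h1, h2⟩ := finrank_sum_le (Finset.range (n + 1)) (fun i => C (n - i) * R (i + 1))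
    (fun i _ => inferInstance) _ rfl
  have h3 : finrank K ↥(Idl R n * V K α 1) ≤ finrank K (Idl R n) * Fintype.card α := by
    refine le_trans (finrank_mul_le _ _) ?_
    rw [finrank_V, pow_one]
  have h4 : ∑ i ∈ Finset.range (n + 1), finrank K ↥(C (n - i) * R (i + 1)) ≤
      ∑ i ∈ Finset.range (n + 1),
        (finrank K (V K α (n - i)) - finrank K (Idl R (n - i))) * r (i + 1) := by
    apply Finset.sum_le_sum
    intro i _
    refine le_trans (finrank_mul_le _ _) ?_
    apply Nat.mul_le_mul _ (hr _)
    have := hC3 (n - i)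
    omega
  have : FiniteDimensional K ↥(Idl R n * V K α 1 +
      ∑ i ∈ Finset.range (n + 1), C (n - i) * R (i + 1)) := by
    rw [Submodule.add_eq_sup]; infer_instance
  refine le_trans (Submodule.finrank_mono key) ?_
  rw [Submodule.add_eq_sup]
  refine le_trans (Submodule.finrank_add_le_finrank_add_finrank _ _) ?_
  omega

theorem growth (b r : ℕ → ℝ) (d t : ℝ) (ht : 0 < t) (hr : ∀ i, 0 ≤ r i) (hb0 : 0 < b 0)
    (hrec : ∀ n, d * b n - ∑ i ∈ Finset.range (n + 1), b (n - i) * r (i + 1) ≤ b (n + 1))
    (hsum : ∀ n, 1 + ∑ i ∈ Finset.range n, r (i + 1) * t ^ (i + 1) ≤ d * t) (n : ℕ) :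
    0 < b n ∧ ∀ j, j ≤ n → b (n - j) ≤ t ^ j * b n := by
  induction n with
  | zero =>
    refine ⟨hb0, ?_⟩
    intro j hj
    obtain rfl : j = 0 := by omega
    simp
  | succ n ih =>
    obtain ⟨h1, h2⟩ := ih
    have h3 : ∑ i ∈ Finset.range (n + 1), b (n - i) * r (i + 1) ≤
        ∑ i ∈ Finset.range (n + 1), (t ^ i * b n) * r (i + 1) := by
      apply Finset.sum_le_sum
      intro i hi
      rw [Finset.mem_range] at hi
      exact mul_le_mul_of_nonneg_right (h2 i (by omega)) (hr _)
    have h4 : t * ∑ i ∈ Finset.range (n + 1), (t ^ i * b n) * r (i + 1) =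
        b n * ∑ i ∈ Finset.range (n + 1), r (i + 1) * t ^ (i + 1) := by
      rw [Finset.mul_sum, Finset.mul_sum]
      apply Finset.sum_congr rfl
      intro i _
      ring
    have h5 := hsum (n + 1)
    have h6 := hrec n
    have h7 : b n ≤ t * b (n + 1) := by
      have h8 : t * (d * b n - ∑ i ∈ Finset.range (n + 1), b (n - i) * r (i + 1)) ≤
        t * b (n + 1) := mul_le_mul_of_nonneg_left h6 ht.le
      have h9 : t * ∑ i ∈ Finset.range (n + 1), b (n - i) * r (i + 1) ≤
        b n * ∑ i ∈ Finset.range (n + 1), r (i + 1) * t ^ (i + 1) := by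
        rw [← h4]; exact mul_le_mul_of_nonneg_left h3 ht.le
      have h10 : b n * (1 + ∑ i ∈ Finset.range (n + 1), r (i + 1) * t ^ (i + 1)) ≤
        b n * (d * t) := mul_le_mul_of_nonneg_left h5 h1.le
      nlinarith
    refine ⟨?_, ?_⟩
    · by_contra hcon
      have : t * b (n + 1) ≤ 0 := mul_nonpos_of_nonneg_of_nonpos ht.le (not_lt.mp hcon)
      linarith
    · intro j hj
      rcases Nat.eq_zero_or_pos j with rfl | hj0
      · simp
      · obtain ⟨k, rfl⟩ : ∃ k, j = k + 1 := ⟨j - 1, by omega⟩
        have h8 := h2 k (by omega)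
        have e : n + 1 - (k + 1) = n - k := by omega
        rw [e, pow_succ, mul_assoc]
        refine le_trans h8 ?_
        exact mul_le_mul_of_nonneg_left h7 (by positivity)

/-- Golod-Shafarevich. -/
theorem finrank_Idl_lt [Fintype α] (hR : ∀ i, R i ≤ V K α i) (r : ℕ → ℕ)
    (hr : ∀ i, finrank K (R i) ≤ r i) (t : ℝ) (ht : 0 < t)
    (hsum : ∀ n, 1 + ∑ i ∈ Finset.range n, (r (i + 1) : ℝ) * t ^ (i + 1) ≤
      (Fintype.card α : ℝ) * t) (n : ℕ) :
    finrank K (Idl R n) < finrank K (V K α n) := by
  have hle : ∀ n, finrank K (Idl R n) ≤ finrank K (V K α n) := fun n =>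
    Submodule.finrank_mono (Idl_le_V hR n)
  have := growth (fun n => (finrank K (V K α n) : ℝ) - finrank K (Idl R n))
    (fun n => (r n : ℝ)) (Fintype.card α) t ht (fun i => by positivity) ?_ ?_ hsum n
  · have h := this.1
    simp only [sub_pos] at h
    exact_mod_cast h
  · have h0 : finrank K (Idl R 0) = 0 := finrank_bot K (FA K α)
    simp only [finrank_V, pow_zero, h0]
    norm_num
  · intro n
    have h := finrank_Idl_succ hR r hr n
    have h' : (finrank K (Idl R (n + 1)) : ℝ) ≤ finrank K (Idl R n) * Fintype.card α +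
      ∑ i ∈ Finset.range (n + 1),
        ((finrank K (V K α (n - i)) : ℝ) - finrank K (Idl R (n - i))) * r (i + 1) := by
      refine le_trans (Nat.cast_le.mpr h) ?_
      push_cast
      apply le_of_eq
      congr 1
      apply Finset.sum_congr rfl
      intro i _
      rw [Nat.cast_sub (hle _)]
    have h2 : (finrank K (V K α (n + 1)) : ℝ) = finrank K (V K α n) * Fintype.card α := by
      rw [finrank_V, finrank_V, pow_succ]
      push_cast
      ring
    rw [h2]
    linarith

theorem exists_mon_notMem [Fintype α] (hR : ∀ i, R i ≤ V K α i) (r : ℕ → ℕ)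
    (hr : ∀ i, finrank K (R i) ≤ r i) (t : ℝ) (ht : 0 < t)
    (hsum : ∀ n, 1 + ∑ i ∈ Finset.range n, (r (i + 1) : ℝ) * t ^ (i + 1) ≤
      (Fintype.card α : ℝ) * t) (n : ℕ) :
    ∃ w : FreeMonoid α, w.length = n ∧ (mon w : FA K α) ∉ Idl R n := by
  by_contra hcon
  push Not at hcon
  have h1 : V K α n ≤ Idl R n := by
    unfold V
    rw [Submodule.span_le]
    rintro _ ⟨w, hw, rfl⟩
    exact hcon w hw
  have : FiniteDimensional K (Idl R n) := Submodule.finiteDimensional_of_le (Idl_le_V hR n)
  have h2 := Submodule.finrank_mono h1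
  have h3 := finrank_Idl_lt hR r hr t ht hsum n
  omega

/-- The two-sided ideal, as a subspace. -/
noncomputable def Jsub (R : ℕ → Submodule K (FA K α)) : Submodule K (FA K α) := ⨆ n, Idl R n

theorem mul_mem_Jsub_left (a : FA K α) {x : FA K α} (hx : x ∈ Jsub R) : a * x ∈ Jsub R := by
  have h : (⨆ k, V K α k) * (⨆ n, Idl R n) ≤ Jsub R := by
    rw [Submodule.iSup_mul]
    apply iSup_le
    intro k
    rw [Submodule.mul_iSup]
    apply iSup_le
    intro n
    exact le_trans (V_mul_Idl k n) (le_iSup (fun n => Idl R n) (k + n))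
  apply h
  apply Submodule.mul_mem_mul _ hx
  rw [iSup_V]
  trivial

theorem mul_mem_Jsub_right (a : FA K α) {x : FA K α} (hx : x ∈ Jsub R) : x * a ∈ Jsub R := by
  have h : (⨆ n, Idl R n) * (⨆ k, V K α k) ≤ Jsub R := by
    rw [Submodule.iSup_mul]
    apply iSup_le
    intro n
    rw [Submodule.mul_iSup]
    apply iSup_le
    intro k
    exact le_trans (Idl_mul_V n k) (le_iSup (fun n => Idl R n) (n + k))
  apply h
  apply Submodule.mul_mem_mul hx
  rw [iSup_V]
  trivial

theorem pr_mem_Idl (hR : ∀ i, R i ≤ V K α i) {f : FA K α} (hf : f ∈ Jsub R) (n : ℕ) :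
    pr K α n f ∈ Idl R n := by
  have h : Submodule.map (pr K α n) (Jsub R) ≤ Idl R n := by
    unfold Jsub
    rw [Submodule.map_iSup]
    apply iSup_le
    intro m
    rintro _ ⟨x, hx, rfl⟩
    rw [pr_of_mem K α n (Idl_le_V hR m hx)]
    split_ifs with h
    · subst h; exact hx
    · exact zero_mem _
  exact h ⟨f, hf, rfl⟩

theorem Idl_le_Jsub (n : ℕ) : Idl R n ≤ Jsub R := le_iSup (fun n => Idl R n) n

theorem R_le_Jsub {n : ℕ} (hn : 1 ≤ n) : R n ≤ Jsub R := by
  refine le_trans ?_ (Idl_le_Jsub n)
  have := V_mul_R (R := R) 0 n hn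
  rwa [V_zero, one_mul, zero_add] at this

/-- The two-sided ideal. -/
noncomputable def J (R : ℕ → Submodule K (FA K α)) : Ideal (FA K α) where
  carrier := Jsub R
  add_mem' := fun ha hb => (Jsub R).add_mem ha hb
  zero_mem' := (Jsub R).zero_mem
  smul_mem' := fun a _ hx => mul_mem_Jsub_left a hx

instance J_twoSided (R : ℕ → Submodule K (FA K α)) : (J R).IsTwoSided where
  mul_mem_of_left := fun b ha => mul_mem_Jsub_right b ha

end GS

end Pool.Agent.Helper824.GS
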