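import Pool.Agent.Helper824.GS

set_option autoImplicit false

namespace Pool.Agent.Helper824.GS

open Module

variable {K : Type} [Field K] {α : Type}

/-- All components of degree less than `k` vanish. -/
def Ord (k : ℕ) (f : FA K α) : Prop := ∀ m, m < k → pr K α m f = 0

theorem Ord.mul {k l : ℕ} {f g : FA K α} (hf : Ord k f) (hg : Ord l g) : Ord (k + l) (f * g) := by
  intro m hm
  rw [pr_mul]
  apply Finset.sum_eq_zero
  rintro ⟨a, b⟩ hab
  rw [Finset.HasAntidiagonal.mem_antidiagonal] at hab
  simp only at hab ⊢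
  by_cases h : a < k
  · rw [hf a h, zero_mul]
  · rw [hg b (by omega), mul_zero]

theorem Ord.zero (f : FA K α) : Ord 0 f := fun m hm => absurd hm (Nat.not_lt_zero m)

theorem Ord.mono {k l : ℕ} (h : l ≤ k) {f : FA K α} (hf : Ord k f) : Ord l f :=
  fun m hm => hf m (by omega)

theorem Ord.add {k : ℕ} {f g : FA K α} (hf : Ord k f) (hg : Ord k g) : Ord k (f + g) := by
  intro m hm
  rw [map_add, hf m hm, hg m hm, add_zero]

theorem Ord.neg {k : ℕ} {f : FA K α} (hf : Ord k f) : Ord k (-f) := by
  intro m hm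
  rw [map_neg, hf m hm, neg_zero]

theorem Ord.sub {k : ℕ} {f g : FA K α} (hf : Ord k f) (hg : Ord k g) : Ord k (f - g) := by
  intro m hm
  rw [map_sub, hf m hm, hg m hm, sub_zero]

theorem Ord.zero' (k : ℕ) : Ord k (0 : FA K α) := by
  intro m _
  rw [map_zero]

theorem Ord.mul_left {k : ℕ} (a : FA K α) {f : FA K α} (hf : Ord k f) : Ord k (a * f) := by
  have := (Ord.zero a).mul hf
  rwa [zero_add] at this

theorem Ord.mul_right {k : ℕ} (a : FA K α) {f : FA K α} (hf : Ord k f) : Ord k (f * a) :=
  hf.mul (Ord.zero a)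

theorem Ord.list {β : Type} (u : β → FA K α) (w : β → ℕ) (hu : ∀ b, Ord (w b) (u b))
    (l : List β) : Ord (l.map w).sum (l.map u).prod := by
  induction l with
  | nil => exact Ord.zero _
  | cons b l ih =>
    rw [List.map_cons, List.sum_cons, List.map_cons, List.prod_cons]
    exact (hu b).mul ih

/-- Value of the word `p` at the tuple `u`. -/
noncomputable def ev {β : Type} (u : β → FA K α) {N : ℕ} (p : Fin N → β) : FA K α :=
  ((List.ofFn p).map u).prod

/-- Weight of a word. -/
def wt {β : Type} (w : β → ℕ) {N : ℕ} (p : Fin N → β) : ℕ := ∑ j, w (p j)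

theorem Ord.ev {β : Type} (u : β → FA K α) (w : β → ℕ) (hu : ∀ b, Ord (w b) (u b))
    {N : ℕ} (p : Fin N → β) : Ord (wt w p) (ev u p) := by
  have := Ord.list u w hu (List.ofFn p)
  have e : ((List.ofFn p).map w).sum = wt w p := by
    rw [List.map_ofFn, List.sum_ofFn]; rfl
  rwa [e] at this

theorem le_wt {β : Type} (w : β → ℕ) (hw : ∀ b, 1 ≤ w b) {N : ℕ} (p : Fin N → β) :
    N ≤ wt w p := by
  unfold wt
  calc N = ∑ _j : Fin N, 1 := by simp
    _ ≤ _ := Finset.sum_le_sum (fun j _ => hw _)

theorem sum_pow_wt {β : Type} [Fintype β] (w : β → ℕ) (t : ℝ) (N : ℕ) :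
    ∑ p : Fin N → β, t ^ (wt w p) = (∑ b, t ^ (w b)) ^ N := by
  rw [Fintype.sum_pow]
  apply Finset.sum_congr rfl
  intro p _
  unfold wt
  rw [Finset.prod_pow_eq_pow_sum]

theorem tail_sum (t : ℝ) (k M : ℕ) :
    (M ≤ k → ∑ m ∈ Finset.range M, (if k ≤ m then t ^ m else 0) = 0) ∧
    (k ≤ M → (1 - t) * ∑ m ∈ Finset.range M, (if k ≤ m then t ^ m else 0) = t ^ k - t ^ M) := by
  induction M with
  | zero =>
    refine ⟨fun _ => by simp, fun h => ?_⟩
    obtain rfl : k = 0 := by omega
    simp
  | succ M ih =>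
    refine ⟨fun h => ?_, fun h => ?_⟩
    · rw [Finset.sum_range_succ, ih.1 (by omega), if_neg (by omega), add_zero]
    · rw [Finset.sum_range_succ]
      by_cases hk : k ≤ M
      · rw [if_pos hk, mul_add, ih.2 hk]
        ring
      · rw [if_neg hk, ih.1 (by omega)]
        obtain rfl : k = M + 1 := by omega
        ring

theorem tail_le (t : ℝ) (ht0 : 0 < t) (ht1 : t < 1) (k M : ℕ) :
    ∑ m ∈ Finset.range M, (if k ≤ m then t ^ m else 0) ≤ t ^ k / (1 - t) := by
  have h1 : 0 < 1 - t := by linarith
  rw [le_div_iff₀ h1]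
  by_cases h : k ≤ M
  · have := (tail_sum t k M).2 h
    have h2 : 0 < t ^ M := by positivity
    linarith
  · rw [(tail_sum t k M).1 (by omega)]
    have h2 : 0 < t ^ k := by positivity
    linarith

open Classical in
/-- Space of relations of degree `m`. -/
noncomputable def Rel (β : ℕ → Type) [∀ i, Fintype (β i)] (w : ∀ i, β i → ℕ)
    (u : ∀ i, β i → FA K α) (N : ℕ → ℕ) (m : ℕ) : Submodule K (FA K α) :=
  ∑ i ∈ Finset.range m, Submodule.span K
    (((Finset.univ.filter (fun p : Fin (N i) → β i => wt (w i) p ≤ m)).image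
      (fun p => pr K α m (ev (u i) p)) : Finset (FA K α)) : Set (FA K α))

open Classical in
theorem finrank_Rel_le (β : ℕ → Type) [∀ i, Fintype (β i)] (w : ∀ i, β i → ℕ)
    (u : ∀ i, β i → FA K α) (N : ℕ → ℕ) (m : ℕ) :
    finrank K (Rel β w u N m) ≤ ∑ i ∈ Finset.range m,
      (Finset.univ.filter (fun p : Fin (N i) → β i => wt (w i) p ≤ m)).card := by
  refine le_trans (finrank_sum_le (Finset.range m) _ ?_ _ rfl).2 ?_
  · intro i _
    exact FiniteDimensional.span_finset K _
  · apply Finset.sum_le_sum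
    intro i _
    exact le_trans (finrank_span_finset_le_card _) Finset.card_image_le

theorem Rel_le_V (β : ℕ → Type) [∀ i, Fintype (β i)] (w : ∀ i, β i → ℕ)
    (u : ∀ i, β i → FA K α) (N : ℕ → ℕ) (m : ℕ) : Rel β w u N m ≤ V K α m := by
  apply sum_le_of_le
  intro i _
  rw [Submodule.span_le]
  intro f hf
  simp only [Finset.coe_image, Set.mem_image] at hf
  obtain ⟨p, _, rfl⟩ := hf
  exact pr_mem K α m _

theorem mem_Rel (β : ℕ → Type) [∀ i, Fintype (β i)] (w : ∀ i, β i → ℕ)
    (u : ∀ i, β i → FA K α) (N : ℕ → ℕ) (m i : ℕ) (hi : i < m) (p : Fin (N i) → β i)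
    (hp : wt (w i) p ≤ m) : pr K α m (ev (u i) p) ∈ Rel β w u N m := by
  classical
  have := le_sum_of_mem (f := fun i => Submodule.span K
    (((Finset.univ.filter (fun p : Fin (N i) → β i => wt (w i) p ≤ m)).image
      (fun p => pr K α m (ev (u i) p)) : Finset (FA K α)) : Set (FA K α)))
      (Finset.mem_range.mpr hi)
  unfold Rel
  convert this (Submodule.subset_span ?_) using 1
  · simp only [Finset.coe_image, Set.mem_image]
    exact ⟨p, by simp [hp], rfl⟩

theorem exists_N (s c : ℝ) (hs0 : 0 ≤ s) (hs1 : s < 1) (hc : 0 < c) (i : ℕ) :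
    ∃ N, i + 1 ≤ N ∧ s ^ N ≤ c := by
  have h := (tendsto_pow_atTop_nhds_zero_of_lt_one hs0 hs1).eventually (gt_mem_nhds hc)
  obtain ⟨N, h1, h2⟩ := (h.and (Filter.eventually_ge_atTop (i + 1))).exists
  exact ⟨N, h2, h1.le⟩

theorem exists_ideal [Fintype α] (t : ℝ) (ht0 : 0 < t) (ht1 : t < 1)
    (hd : 1 < (Fintype.card α : ℝ) * t) (β : ℕ → Type) [∀ i, Fintype (β i)]
    (w : ∀ i, β i → ℕ) (hw : ∀ i b, 1 ≤ w i b) (hs : ∀ i, ∑ b, t ^ (w i b) < 1)
    (u : ∀ i, β i → FA K α) (hu : ∀ i b, Ord (w i b) (u i b)) :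
    ∃ R : ℕ → Submodule K (FA K α), (∀ i, R i ≤ V K α i) ∧
      (∀ n, ∃ v : FreeMonoid α, v.length = n ∧ (mon v : FA K α) ∉ Idl R n) ∧
      ∀ i, ∃ N, ∀ p : Fin N → β i, ev (u i) p ∈ Jsub R := by
  classical
  set c : ℝ := (Fintype.card α : ℝ) * t - 1 with hc
  have hc0 : 0 < c := by linarith
  have ht1' : 0 < 1 - t := by linarith
  have hN := fun i => exists_N (∑ b, t ^ (w i b)) (c * (1 / 2) ^ (i + 1) * (1 - t))
    (Finset.sum_nonneg (fun b _ => by positivity)) (hs i) (by positivity) i
  choose N hN1 hN2 using hN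
  refine ⟨Rel β w u N, Rel_le_V β w u N, ?_, ?_⟩
  · apply exists_mon_notMem (Rel_le_V β w u N) _ (finrank_Rel_le β w u N) t ht0
    intro n
    have e1 : ∀ m, ((∑ i ∈ Finset.range m,
        (Finset.univ.filter (fun p : Fin (N i) → β i => wt (w i) p ≤ m)).card : ℕ) : ℝ) * t ^ m =
        ∑ i ∈ Finset.range m, ∑ p : Fin (N i) → β i, (if wt (w i) p ≤ m then t ^ m else 0) := by
      intro m
      push_cast
      rw [Finset.sum_mul]
      apply Finset.sum_congr rfl
      intro i _
      rw [Finset.card_filter]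
      push_cast
      rw [Finset.sum_mul]
      apply Finset.sum_congr rfl
      intro p _
      split_ifs <;> simp
    have e2 : ∑ i ∈ Finset.range n, (((∑ j ∈ Finset.range (i + 1),
        (Finset.univ.filter (fun p : Fin (N j) → β j => wt (w j) p ≤ i + 1)).card : ℕ) : ℝ)
          * t ^ (i + 1)) ≤ c := by
      calc _ = ∑ i ∈ Finset.range n, ∑ j ∈ Finset.range (i + 1), ∑ p : Fin (N j) → β j,
              (if wt (w j) p ≤ i + 1 then t ^ (i + 1) else 0) := by
            apply Finset.sum_congr rfl
            intro i _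
            exact e1 (i + 1)
        _ ≤ ∑ i ∈ Finset.range (n + 1), ∑ j ∈ Finset.range (n + 1), ∑ p : Fin (N j) → β j,
              (if wt (w j) p ≤ i then t ^ i else 0) := by
            rw [Finset.sum_range_succ' _ n]
            have h0 : 0 ≤ ∑ j ∈ Finset.range (n + 1), ∑ p : Fin (N j) → β j,
              (if wt (w j) p ≤ 0 then t ^ 0 else 0 : ℝ) := by
              apply Finset.sum_nonneg; intro j _
              apply Finset.sum_nonneg; intro p _
              split_ifs <;> positivity
            have h1 : ∑ i ∈ Finset.range n, ∑ j ∈ Finset.range (i + 1), ∑ p : Fin (N j) → β j,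
              (if wt (w j) p ≤ i + 1 then t ^ (i + 1) else 0) ≤ ∑ i ∈ Finset.range n,
              ∑ j ∈ Finset.range (n + 1), ∑ p : Fin (N j) → β j,
              (if wt (w j) p ≤ i + 1 then t ^ (i + 1) else 0) := by
              apply Finset.sum_le_sum
              intro i hi
              rw [Finset.mem_range] at hi
              apply Finset.sum_le_sum_of_subset_of_nonneg
              · intro j hj
                rw [Finset.mem_range] at *
                omega
              · intro j _ _
                apply Finset.sum_nonneg; intro p _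
                split_ifs <;> positivity
            linarith
        _ = ∑ j ∈ Finset.range (n + 1), ∑ p : Fin (N j) → β j, ∑ i ∈ Finset.range (n + 1),
              (if wt (w j) p ≤ i then t ^ i else 0) := by
            rw [Finset.sum_comm]
            apply Finset.sum_congr rfl
            intro j _
            rw [Finset.sum_comm]
        _ ≤ ∑ j ∈ Finset.range (n + 1), ∑ p : Fin (N j) → β j, t ^ (wt (w j) p) / (1 - t) := by
            apply Finset.sum_le_sum; intro j _
            apply Finset.sum_le_sum; intro p _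
            exact tail_le t ht0 ht1 _ _
        _ = ∑ j ∈ Finset.range (n + 1), (∑ b, t ^ (w j b)) ^ (N j) / (1 - t) := by
            apply Finset.sum_congr rfl; intro j _
            rw [← Finset.sum_div, sum_pow_wt]
        _ ≤ ∑ j ∈ Finset.range (n + 1), c * (1 / 2) ^ (j + 1) := by
            apply Finset.sum_le_sum; intro j _
            rw [div_le_iff₀ ht1']
            exact hN2 j
        _ ≤ c := by
            rw [← Finset.mul_sum]
            have : ∑ i ∈ Finset.range (n + 1), ((1 : ℝ) / 2) ^ (i + 1) ≤ 1 := by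
              simp only [pow_succ]
              rw [← Finset.sum_mul]
              have := sum_geometric_two_le (n + 1)
              linarith
            nlinarith
    have e3 : 1 + c = (Fintype.card α : ℝ) * t := by rw [hc]; ring
    rw [← e3]
    linarith
  · intro i
    refine ⟨N i, fun p => ?_⟩
    obtain ⟨M, hM⟩ := exists_sum_pr K α (ev (u i) p)
    rw [hM M le_rfl]
    apply Submodule.sum_mem
    intro m _
    have hO := Ord.ev (u i) (w i) (hu i) p
    by_cases hm : m < wt (w i) p
    · rw [hO m hm]; exact zero_mem _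
    · have h1 := le_wt (w i) (hw i) p
      have h2 := hN1 i
      have h3 := mem_Rel β w u N m i (by omega) p (by omega)
      exact R_le_Jsub (by omega) h3

end Pool.Agent.Helper824.GS
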