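import Pool.Agent.Helper824.Tens

set_option autoImplicit false

namespace Pool.Agent.Helper824.Tens

open Polynomial TensorProduct Pool.Agent.Helper824.AlgR Pool.Agent.Helper824.Filt

/-- Every rational vector space has a total order (given by its positive cone). -/
theorem exists_cone (V : Type) [AddCommGroup V] [Module ℚ V] :
    ∃ C0 : Set V, (0 : V) ∉ C0 ∧ (∀ a ∈ C0, ∀ b ∈ C0, a + b ∈ C0) ∧
      ∀ a, a ≠ 0 → a ∈ C0 ∨ -a ∈ C0 := by
  classical
  let b := Module.Basis.ofVectorSpace ℚ V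
  let _ : LinearOrder (Module.Basis.ofVectorSpaceIndex ℚ V) := linearOrderOfSTO WellOrderingRel
  have hadd : ∀ u v : V, toLex (b.repr (u + v)) = toLex (b.repr u) + toLex (b.repr v) := by
    intro u v
    rw [map_add]; rfl
  have hneg : ∀ u : V, toLex (b.repr (-u)) = -toLex (b.repr u) := by
    intro u
    rw [map_neg]; rfl
  refine ⟨{v | 0 < toLex (b.repr v)}, ?_, ?_, ?_⟩
  · intro h
    change 0 < toLex (b.repr 0) at h
    rw [map_zero] at h
    exact lt_irrefl _ h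
  · intro u hu v hv
    change 0 < toLex (b.repr (u + v))
    rw [hadd]
    exact add_pos hu hv
  · intro v hv
    have h1 : toLex (b.repr v) ≠ 0 := by
      intro h
      apply hv
      have h2 : b.repr v = 0 := h
      rwa [LinearEquiv.map_eq_zero_iff] at h2
    rcases lt_or_gt_of_ne h1 with h | h
    · right
      change 0 < toLex (b.repr (-v))
      rw [hneg]
      exact neg_pos.mpr h
    · left
      exact h

section cone

variable {k : ℕ} {B : Type} [Ring B] [Algebra ℚ B] (G : GNil k B) (C0 : Set (T2 B))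

/-- The cone of the elements with leading component in `C0`. -/
def cone : Set (T2 B) := {s | ∃ n, (∀ m < n, (DS G s).coeff m = 0) ∧ (DS G s).coeff n ∈ C0}

theorem cone_zero (h0 : (0 : T2 B) ∉ C0) : (0 : T2 B) ∉ cone G C0 := by
  rintro ⟨n, _, h⟩
  rw [map_zero, coeff_zero] at h
  exact h0 h

theorem cone_add (hadd : ∀ a ∈ C0, ∀ b ∈ C0, a + b ∈ C0) :
    ∀ a ∈ cone G C0, ∀ b ∈ cone G C0, a + b ∈ cone G C0 := by
  rintro a ⟨n, h1, h2⟩ b ⟨m, h3, h4⟩
  rcases lt_trichotomy n m with h | h | h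
  · refine ⟨n, fun i hi => ?_, ?_⟩
    · rw [map_add, coeff_add, h1 i hi, h3 i (by omega), add_zero]
    · rw [map_add, coeff_add, h3 n h, add_zero]; exact h2
  · subst h
    refine ⟨n, fun i hi => ?_, ?_⟩
    · rw [map_add, coeff_add, h1 i hi, h3 i (by omega), add_zero]
    · rw [map_add, coeff_add]; exact hadd _ h2 _ h4
  · refine ⟨m, fun i hi => ?_, ?_⟩
    · rw [map_add, coeff_add, h1 i (by omega), h3 i hi, add_zero]
    · rw [map_add, coeff_add, h1 m h, zero_add]; exact h4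

theorem cone_total (htot : ∀ a, a ≠ 0 → a ∈ C0 ∨ -a ∈ C0) :
    ∀ a, a ≠ 0 → a ∈ cone G C0 ∨ -a ∈ cone G C0 := by
  classical
  intro a ha
  have h1 : ∃ n, (DS G a).coeff n ≠ 0 := by
    by_contra hcon
    push Not at hcon
    exact ha (DS_injective G a (Polynomial.ext (fun n => by rw [hcon n, coeff_zero])))
  have h2 := Nat.find_spec h1
  have h3 : ∀ m < Nat.find h1, (DS G a).coeff m = 0 := fun m hm => by
    by_contra h
    exact Nat.find_min h1 hm h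
  rcases htot _ h2 with h | h
  · left; exact ⟨_, h3, h⟩
  · right
    refine ⟨Nat.find h1, fun m hm => ?_, ?_⟩
    · rw [map_neg, coeff_neg, h3 m hm, neg_zero]
    · rw [map_neg, coeff_neg]; exact h

theorem coeff_mul_low {u s : T2 B} (hu : (DS G u).coeff 0 = 1) {n : ℕ}
    (hs : ∀ m < n, (DS G s).coeff m = 0) (m : ℕ) (hm : m ≤ n) :
    (DS G (u * s)).coeff m = (DS G s).coeff m := by
  rw [map_mul, coeff_mul, Finset.sum_eq_single (0, m)]
  · rw [hu, one_mul]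
  · rintro ⟨a, b⟩ hab hne
    rw [Finset.HasAntidiagonal.mem_antidiagonal] at hab
    simp only at hab ⊢
    rw [hs b ?_, mul_zero]
    have : a ≠ 0 := by
      rintro rfl
      apply hne
      rw [zero_add] at hab
      rw [hab]
    omega
  · intro h
    exact absurd (by simp) h

theorem coeff_mul_low' {u s : T2 B} (hu : (DS G u).coeff 0 = 1) {n : ℕ}
    (hs : ∀ m < n, (DS G s).coeff m = 0) (m : ℕ) (hm : m ≤ n) :
    (DS G (s * u)).coeff m = (DS G s).coeff m := by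
  rw [map_mul, coeff_mul, Finset.sum_eq_single (m, 0)]
  · rw [hu, mul_one]
  · rintro ⟨a, b⟩ hab hne
    rw [Finset.HasAntidiagonal.mem_antidiagonal] at hab
    simp only at hab ⊢
    rw [hs a ?_, zero_mul]
    have : b ≠ 0 := by
      rintro rfl
      apply hne
      rw [add_zero] at hab
      rw [hab]
    omega
  · intro h
    exact absurd (by simp) h

theorem cone_mul {u : T2 B} (hu : (DS G u).coeff 0 = 1) :
    ∀ s ∈ cone G C0, u * s ∈ cone G C0 := by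
  rintro s ⟨n, h1, h2⟩
  refine ⟨n, fun m hm => ?_, ?_⟩
  · rw [coeff_mul_low G hu h1 m hm.le, h1 m hm]
  · rw [coeff_mul_low G hu h1 n le_rfl]; exact h2

theorem cone_mul' {u : T2 B} (hu : (DS G u).coeff 0 = 1) :
    ∀ s ∈ cone G C0, s * u ∈ cone G C0 := by
  rintro s ⟨n, h1, h2⟩
  refine ⟨n, fun m hm => ?_, ?_⟩
  · rw [coeff_mul_low' G hu h1 m hm.le, h1 m hm]
  · rw [coeff_mul_low' G hu h1 n le_rfl]; exact h2

end cone

section gam

variable {B : Type} [Ring B] [Algebra ℚ B] (G : GNil 2 B)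

theorem nilp (r : B) (hr : (G.D r).coeff 0 = 0) : ∃ n, r ^ n = 0 := by
  obtain ⟨N, hN⟩ := G.nil (fun _ => r) (fun _ => hr)
  refine ⟨N, ?_⟩
  have := hN (fun _ => 0)
  simpa using this

theorem exists_inv (a : B) (ha : (G.D a).coeff 0 = 1) :
    ∃ u : Bˣ, (u : B) = a ∧ (G.D ((u⁻¹ : Bˣ) : B)).coeff 0 = 1 := by
  obtain ⟨n, hn⟩ := nilp G (a - 1) (by rw [map_sub, map_one, coeff_sub, ha, coeff_one_zero, sub_self])
  have h1 : IsUnit (1 + (a - 1)) := IsNilpotent.isUnit_one_add ⟨n, hn⟩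
  rw [add_sub_cancel] at h1
  obtain ⟨u, hu⟩ := h1
  refine ⟨u, hu, ?_⟩
  have h2 : (G.D (u : B)).coeff 0 * (G.D ((u⁻¹ : Bˣ) : B)).coeff 0 = 1 := by
    rw [← mul_coeff_zero, ← map_mul, Units.mul_inv, map_one, coeff_one_zero]
  rwa [hu, ha, one_mul] at h2

/-- The group of all tensors of two elements with constant term one. -/
def Gam : Subgroup (T2 B)ˣ where
  carrier := {u | ∃ a b : B, (G.D a).coeff 0 = 1 ∧ (G.D b).coeff 0 = 1 ∧
    (u : T2 B) = a ⊗ₜ[ℚ] b}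
  one_mem' := ⟨1, 1, by rw [map_one, coeff_one_zero], by rw [map_one, coeff_one_zero], rfl⟩
  mul_mem' := by
    rintro u v ⟨a, b, ha, hb, hu⟩ ⟨a', b', ha', hb', hv⟩
    refine ⟨a * a', b * b', ?_, ?_, ?_⟩
    · rw [map_mul, mul_coeff_zero, ha, ha', one_mul]
    · rw [map_mul, mul_coeff_zero, hb, hb', one_mul]
    · rw [Units.val_mul, hu, hv, Algebra.TensorProduct.tmul_mul_tmul]
  inv_mem' := by
    rintro u ⟨a, b, ha, hb, hu⟩
    obtain ⟨v, hv, hv'⟩ := exists_inv G a ha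
    obtain ⟨w, hw, hw'⟩ := exists_inv G b hb
    refine ⟨_, _, hv', hw', ?_⟩
    apply Units.inv_eq_of_mul_eq_one_right
    rw [hu, Algebra.TensorProduct.tmul_mul_tmul, ← hv, ← hw, Units.mul_inv, Units.mul_inv]
    rfl

theorem DS_gam (u : Gam G) : (DS G ((u : (T2 B)ˣ) : T2 B)).coeff 0 = 1 := by
  obtain ⟨a, b, ha, hb, hu⟩ := u.2
  rw [hu, DS_tmul, mul_coeff_zero, coeff_map, coeff_map, ha, hb, map_one, map_one, one_mul]

theorem gam_unip (u : Gam G) : ∃ n, (((u : (T2 B)ˣ) : T2 B) - 1) ^ n = 0 := by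
  obtain ⟨a, b, ha, hb, hu⟩ := u.2
  obtain ⟨n, hn⟩ := nilp G (a - 1) (by rw [map_sub, map_one, coeff_sub, ha, coeff_one_zero, sub_self])
  obtain ⟨m, hm⟩ := nilp G (b - 1) (by rw [map_sub, map_one, coeff_sub, hb, coeff_one_zero, sub_self])
  have h1 : ((u : (T2 B)ˣ) : T2 B) - 1 = (a - 1) ⊗ₜ[ℚ] b + (1 : B) ⊗ₜ[ℚ] (b - 1) := by
    rw [hu, TensorProduct.sub_tmul, TensorProduct.tmul_sub, Algebra.TensorProduct.one_def]
    abel
  have h2 : IsNilpotent ((a - 1) ⊗ₜ[ℚ] b : T2 B) := by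
    refine ⟨n, ?_⟩
    rw [Algebra.TensorProduct.tmul_pow, hn, TensorProduct.zero_tmul]
  have h3 : IsNilpotent ((1 : B) ⊗ₜ[ℚ] (b - 1) : T2 B) := by
    refine ⟨m, ?_⟩
    rw [Algebra.TensorProduct.tmul_pow, hm, TensorProduct.tmul_zero]
  have h4 : Commute ((a - 1) ⊗ₜ[ℚ] b : T2 B) ((1 : B) ⊗ₜ[ℚ] (b - 1)) := by
    unfold Commute SemiconjBy
    rw [Algebra.TensorProduct.tmul_mul_tmul, Algebra.TensorProduct.tmul_mul_tmul, mul_one, one_mul,
      mul_sub, sub_mul, mul_one, one_mul]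
  rw [h1]
  exact h4.isNilpotent_add h2 h3

/-- The subspace spanned by two elements of the first factor. -/
noncomputable def ML (f : Fin 2 → B) : Submodule ℚ (T2 B) :=
  Submodule.span ℚ (Set.range (fun i => inL (f i)))

/-- The subspace spanned by two elements of the second factor. -/
noncomputable def MR (f : Fin 2 → B) : Submodule ℚ (T2 B) :=
  Submodule.span ℚ (Set.range (fun i => inR (f i)))

theorem ML_pow (f : Fin 2 → B) (N : ℕ) (h : ∀ p : Fin N → Fin 2, ((List.ofFn p).map f).prod = 0) :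
    ML f ^ N = ⊥ := by
  apply span_pow_eq_bot
  intro p
  have h1 : (List.ofFn p).map (fun i => (inL (f i) : T2 B)) = ((List.ofFn p).map f).map inL := by
    rw [List.map_map]; rfl
  rw [h1, ← map_list_prod, h p, map_zero]

theorem MR_pow (f : Fin 2 → B) (N : ℕ) (h : ∀ p : Fin N → Fin 2, ((List.ofFn p).map f).prod = 0) :
    MR f ^ N = ⊥ := by
  apply span_pow_eq_bot
  intro p
  have h1 : (List.ofFn p).map (fun i => (inR (f i) : T2 B)) = ((List.ofFn p).map f).map inR := by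
    rw [List.map_map]; rfl
  rw [h1, ← map_list_prod, h p, map_zero]

theorem ML_mul_MR (f g : Fin 2 → B) : ML f * MR g = MR g * ML f := by
  unfold ML MR
  rw [Submodule.span_mul_span, Submodule.span_mul_span]
  congr 1
  ext a
  constructor
  · rintro ⟨_, ⟨i, rfl⟩, _, ⟨j, rfl⟩, rfl⟩
    exact ⟨_, ⟨j, rfl⟩, _, ⟨i, rfl⟩, (commute_in (f i) (g j)).symm⟩
  · rintro ⟨_, ⟨i, rfl⟩, _, ⟨j, rfl⟩, rfl⟩
    exact ⟨_, ⟨j, rfl⟩, _, ⟨i, rfl⟩, (commute_in (f j) (g i))⟩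

theorem gam_engel (x y : Gam G) : ∃ n, (fun z : Gam G => z⁻¹ * y⁻¹ * z * y)^[n] x = 1 := by
  obtain ⟨a, b, ha, hb, hx⟩ := x.2
  obtain ⟨a', b', ha', hb', hy⟩ := y.2
  have hc : ∀ c : B, (G.D c).coeff 0 = 1 → (G.D (c - 1)).coeff 0 = 0 := by
    intro c hc
    rw [map_sub, map_one, coeff_sub, hc, coeff_one_zero, sub_self]
  obtain ⟨N, hN⟩ := G.nil ![a - 1, a' - 1] (by
    intro i; fin_cases i
    · exact hc a ha
    · exact hc a' ha')
  obtain ⟨N', hN'⟩ := G.nil ![b - 1, b' - 1] (by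
    intro i; fin_cases i
    · exact hc b hb
    · exact hc b' hb')
  have h1 := ML_pow _ N hN
  have h2 := MR_pow _ N' hN'
  set M1 := ML ![a - 1, a' - 1] with hM1
  set M2 := MR ![b - 1, b' - 1] with hM2
  have h3 : Commute M1 M2 := ML_mul_MR _ _
  have h4 : IsNilpotent (M1 + M2) := h3.isNilpotent_add ⟨N, h1⟩ ⟨N', h2⟩
  obtain ⟨n, hn⟩ := h4
  have hle1 : M1 ≤ F (M1 + M2) 1 := by
    refine le_trans ?_ (pow_le_F _ 1)
    rw [pow_one, Submodule.add_eq_sup]; exact le_sup_left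
  have hle2 : M2 ≤ F (M1 + M2) 1 := by
    refine le_trans ?_ (pow_le_F _ 1)
    rw [pow_one, Submodule.add_eq_sup]; exact le_sup_right
  have key : ∀ (c c' : B), inL (c - 1) ∈ M1 → inR (c' - 1) ∈ M2 →
      (c ⊗ₜ[ℚ] c' : T2 B) - 1 ∈ F (M1 + M2) 1 := by
    intro c c' h5 h6
    have h7 : (c ⊗ₜ[ℚ] c' : T2 B) - 1 = inL (c - 1) + inR (c' - 1) + inL (c - 1) * inR (c' - 1) := by
      rw [inL_mul_inR]
      simp only [inL, inR, Algebra.TensorProduct.includeLeft_apply,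
        Algebra.TensorProduct.includeRight_apply]
      rw [TensorProduct.sub_tmul, TensorProduct.tmul_sub, TensorProduct.sub_tmul,
        TensorProduct.tmul_sub, TensorProduct.tmul_sub, Algebra.TensorProduct.one_def]
      abel
    rw [h7]
    refine Submodule.add_mem _ (Submodule.add_mem _ (hle1 h5) (hle2 h6)) ?_
    exact F_le _ (by norm_num) (mul_mem_F _ (hle1 h5) (hle2 h6))
  have hx1 : (((x : (T2 B)ˣ) : T2 B)) - 1 ∈ F (M1 + M2) 1 := by
    rw [hx]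
    exact key a b (Submodule.subset_span ⟨0, rfl⟩) (Submodule.subset_span ⟨0, rfl⟩)
  have hy1 : (((y : (T2 B)ˣ) : T2 B)) - 1 ∈ F (M1 + M2) 1 := by
    rw [hy]
    exact key a' b' (Submodule.subset_span ⟨1, rfl⟩) (Submodule.subset_span ⟨1, rfl⟩)
  refine ⟨n, ?_⟩
  have h5 := engel (M1 + M2) hn x y hx1 hy1
  apply Subtype.ext
  refine Eq.trans ?_ h5
  have h6 : Function.Semiconj (fun z : Gam G => (z : (T2 B)ˣ)) (fun z : Gam G => z⁻¹ * y⁻¹ * z * y)
      (fun z : (T2 B)ˣ => z⁻¹ * (y : (T2 B)ˣ)⁻¹ * z * y) := fun z => rfl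
  exact (h6.iterate_right n) x

/-- The element of the group given by two elements with constant term one. -/
theorem exists_gam (a b : B) (ha : (G.D a).coeff 0 = 1) (hb : (G.D b).coeff 0 = 1) :
    ∃ u : Gam G, ((u : (T2 B)ˣ) : T2 B) = a ⊗ₜ[ℚ] b := by
  obtain ⟨v, hv, hv'⟩ := exists_inv G a ha
  obtain ⟨w, hw, hw'⟩ := exists_inv G b hb
  refine ⟨⟨⟨a ⊗ₜ[ℚ] b, ((v⁻¹ : Bˣ) : B) ⊗ₜ[ℚ] ((w⁻¹ : Bˣ) : B), ?_, ?_⟩, a, b, ha, hb, rfl⟩, rfl⟩
  · rw [Algebra.TensorProduct.tmul_mul_tmul, ← hv, ← hw, Units.mul_inv, Units.mul_inv]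
    rfl
  · rw [Algebra.TensorProduct.tmul_mul_tmul, ← hv, ← hw, Units.inv_mul, Units.inv_mul]
    rfl

theorem exists_list : ∃ (g : Gam G) (l : List (Gam G)),
    ((g : (T2 B)ˣ) : T2 B) + (l.map (fun g : Gam G => ((g : (T2 B)ˣ) : T2 B))).sum =
      algebraMap ℚ (T2 B) 9 + qq G := by
  have h0 : (G.D 1).coeff 0 = 1 := by rw [map_one, coeff_one_zero]
  have hx : ∀ i, (G.D (G.x i)).coeff 0 = 0 := fun i => by rw [G.D_x]; simp
  have hp : ∀ i, (G.D (1 + G.x i)).coeff 0 = 1 := fun i => by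
    rw [map_add, coeff_add, h0, hx, add_zero]
  have hm : ∀ i, (G.D (1 - G.x i)).coeff 0 = 1 := fun i => by
    rw [map_sub, coeff_sub, h0, hx, sub_zero]
  choose g1 hg1 using fun i => exists_gam G (1 + G.x i) 1 (hp i) h0
  choose g2 hg2 using fun i => exists_gam G 1 (1 + G.x i) h0 (hp i)
  choose g3 hg3 using fun i => exists_gam G (1 - G.x i) (1 - G.x i) (hm i) (hm i)
  have key : ∀ i, ((g1 i : (T2 B)ˣ) : T2 B) + ((g2 i : (T2 B)ˣ) : T2 B) +
      ((g3 i : (T2 B)ˣ) : T2 B) = algebraMap ℚ (T2 B) 3 + G.x i ⊗ₜ[ℚ] G.x i := by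
    intro i
    rw [hg1, hg2, hg3]
    have h3 : algebraMap ℚ (T2 B) 3 = (1 : B) ⊗ₜ[ℚ] (1 : B) + (1 : B) ⊗ₜ[ℚ] (1 : B) +
        (1 : B) ⊗ₜ[ℚ] (1 : B) := by
      rw [← Algebra.TensorProduct.one_def, map_ofNat]; norm_num
    rw [h3, TensorProduct.add_tmul, TensorProduct.tmul_add, TensorProduct.sub_tmul,
      TensorProduct.tmul_sub, TensorProduct.tmul_sub]
    abel
  refine ⟨g1 0, [g2 0, g3 0, g1 1, g2 1, g3 1, g1 2, g2 2, g3 2], ?_⟩
  simp only [List.map_cons, List.map_nil, List.sum_cons, List.sum_nil, add_zero]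
  unfold qq
  rw [Fin.sum_univ_three]
  have h9 : algebraMap ℚ (T2 B) 9 = algebraMap ℚ (T2 B) 3 + algebraMap ℚ (T2 B) 3 +
      algebraMap ℚ (T2 B) 3 := by rw [← map_add, ← map_add]; norm_num
  have e : algebraMap ℚ (T2 B) 9 + (G.x 0 ⊗ₜ[ℚ] G.x 0 + G.x 1 ⊗ₜ[ℚ] G.x 1 + G.x 2 ⊗ₜ[ℚ] G.x 2) =
      (algebraMap ℚ (T2 B) 3 + G.x 0 ⊗ₜ[ℚ] G.x 0) + (algebraMap ℚ (T2 B) 3 + G.x 1 ⊗ₜ[ℚ] G.x 1) +
      (algebraMap ℚ (T2 B) 3 + G.x 2 ⊗ₜ[ℚ] G.x 2) := by rw [h9]; abel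
  rw [e, ← key, ← key, ← key]
  abel

end gam

/-- Summary: a rational algebra with an Engel group of units which act unipotently, a total order
of the algebra which is invariant under multiplication by the group, and finitely many elements
of the group whose sum has no left inverse. -/
theorem summary : ∃ (S : Type) (_ : Ring S) (_ : Algebra ℚ S) (Γ : Subgroup Sˣ) (C : Set S)
    (g₁ : Γ) (l : List Γ),
    (∀ x y : Γ, ∃ n, (fun z : Γ => z⁻¹ * y⁻¹ * z * y)^[n] x = 1) ∧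
    (∀ u : Γ, ∃ n, (((u : Sˣ) : S) - 1) ^ n = 0) ∧
    (0 : S) ∉ C ∧ (∀ a ∈ C, ∀ b ∈ C, a + b ∈ C) ∧ (∀ a, a ≠ 0 → a ∈ C ∨ -a ∈ C) ∧
    (∀ u : Γ, ∀ a ∈ C, ((u : Sˣ) : S) * a ∈ C) ∧ (∀ u : Γ, ∀ a ∈ C, a * ((u : Sˣ) : S) ∈ C) ∧
    (∀ s : S, s * (((g₁ : Sˣ) : S) + (l.map (fun g : Γ => ((g : Sˣ) : S))).sum) ≠ 1) := by
  obtain ⟨B, _, _, ⟨G⟩⟩ := exists_GNil 2 (by norm_num)
  obtain ⟨C0, h0, hadd, htot⟩ := exists_cone (T2 B)
  obtain ⟨g, l, hl⟩ := exists_list G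
  refine ⟨T2 B, inferInstance, inferInstance, Gam G, cone G C0, g, l, gam_engel G, gam_unip G,
    cone_zero G C0 h0, cone_add G C0 hadd, cone_total G C0 htot,
    fun u => cone_mul G C0 (DS_gam G u), fun u => cone_mul' G C0 (DS_gam G u), ?_⟩
  rw [hl]
  exact mul_ne_one G 9 (by norm_num)

end Pool.Agent.Helper824.Tens
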