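import Pool.Agent.Helper824.Core

set_option autoImplicit false

namespace Pool.Agent.Helper824.TF

open Pool.Agent.Helper824.Core

variable {S : Type} [Ring S] [Algebra ℚ S]

/-- The semidirect product of a module with the group `Γ`. -/
@[ext]
structure GV (Γ : Subgroup Sˣ) (M : Type) [AddCommGroup M] [Module S M] : Type where
  m : M
  g : Γ

variable {Γ : Subgroup Sˣ} {M : Type} [AddCommGroup M] [Module S M]

instance : Mul (GV Γ M) := ⟨fun a b => ⟨a.m + v a.g • b.m, a.g * b.g⟩⟩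

instance : One (GV Γ M) := ⟨⟨0, 1⟩⟩

instance : Inv (GV Γ M) := ⟨fun a => ⟨-(v a.g⁻¹ • a.m), a.g⁻¹⟩⟩

theorem mul_m (a b : GV Γ M) : (a * b).m = a.m + v a.g • b.m := rfl
theorem mul_g (a b : GV Γ M) : (a * b).g = a.g * b.g := rfl
theorem one_m : (1 : GV Γ M).m = 0 := rfl
theorem one_g : (1 : GV Γ M).g = 1 := rfl
theorem inv_m (a : GV Γ M) : (a⁻¹).m = -(v a.g⁻¹ • a.m) := rfl
theorem inv_g (a : GV Γ M) : (a⁻¹).g = a.g⁻¹ := rfl

instance : Group (GV Γ M) := Group.ofLeftAxioms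
  (by
    intro a b c
    refine GV.ext ?_ ?_
    · simp only [mul_m, mul_g, v_mul, mul_smul, smul_add, add_assoc]
    · simp only [mul_g, mul_assoc])
  (by
    intro a
    refine GV.ext ?_ ?_
    · simp only [mul_m, one_m, one_g, v_one, one_smul, zero_add]
    · simp only [mul_g, one_g, one_mul])
  (by
    intro a
    refine GV.ext ?_ ?_
    · simp only [mul_m, inv_m, inv_g, one_m, neg_add_cancel]
    · simp only [mul_g, inv_g, one_g, inv_mul_cancel])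

/-- The commutator of `z` with `y`, where `z` is in the kernel of the projection. -/
theorem comm_ker (z y : GV Γ M) (hz : z.g = 1) :
    (z⁻¹ * y⁻¹ * z * y).m = (v y.g⁻¹ - 1) • z.m ∧ (z⁻¹ * y⁻¹ * z * y).g = 1 := by
  refine ⟨?_, ?_⟩
  · simp only [mul_m, mul_g, inv_m, inv_g, hz, inv_one, v_one, one_mul, mul_one, one_smul,
      sub_smul]
    abel
  · simp only [mul_g, inv_g, hz]
    group

theorem engel_GV
    (hE : ∀ x y : Γ, ∃ n, (fun z : Γ => z⁻¹ * y⁻¹ * z * y)^[n] x = 1)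
    (hU : ∀ u : Γ, ∃ n, (((u : Sˣ) : S) - 1) ^ n = 0) (x y : GV Γ M) :
    ∃ n, (fun z : GV Γ M => z⁻¹ * y⁻¹ * z * y)^[n] x = 1 := by
  obtain ⟨n0, h0⟩ := hE x.g y.g
  have h1 : Function.Semiconj (fun z : GV Γ M => z.g) (fun z : GV Γ M => z⁻¹ * y⁻¹ * z * y)
      (fun z : Γ => z⁻¹ * y.g⁻¹ * z * y.g) := fun z => rfl
  have h2 : ((fun z : GV Γ M => z⁻¹ * y⁻¹ * z * y)^[n0] x).g = 1 :=
    (h1.iterate_right n0 x).trans h0
  obtain ⟨n1, hn1⟩ := hU y.g⁻¹
  change (v y.g⁻¹ - 1) ^ n1 = 0 at hn1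
  set z0 := (fun z : GV Γ M => z⁻¹ * y⁻¹ * z * y)^[n0] x with hz0
  have key : ∀ m, ((fun z : GV Γ M => z⁻¹ * y⁻¹ * z * y)^[m] z0).m = (v y.g⁻¹ - 1) ^ m • z0.m ∧
      ((fun z : GV Γ M => z⁻¹ * y⁻¹ * z * y)^[m] z0).g = 1 := by
    intro m
    induction m with
    | zero => simp [h2]
    | succ m ih =>
      rw [Function.iterate_succ_apply']
      obtain ⟨i1, i3⟩ := ih
      obtain ⟨j1, j3⟩ := comm_ker _ y i3
      refine ⟨?_, j3⟩
      rw [j1, i1, smul_smul, ← pow_succ']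
  obtain ⟨k1, k3⟩ := key n1
  refine ⟨n1 + n0, ?_⟩
  rw [Function.iterate_add_apply]
  refine GV.ext ?_ ?_
  · rw [k1, hn1, zero_smul]; rfl
  · rw [k3]; rfl

/-- An element of the module. -/
def el (Γ : Subgroup Sˣ) (m : M) : GV Γ M := ⟨m, 1⟩

theorem el_mul (m m' : M) : el Γ m * el Γ m' = el Γ (m + m') := by
  refine GV.ext ?_ ?_
  · simp only [el, mul_m, v_one, one_smul]
  · simp only [el, mul_g, mul_one]

theorem el_zero : el Γ (0 : M) = 1 := rfl

theorem el_inv (m : M) : (el Γ m)⁻¹ = el Γ (-m) := by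
  rw [inv_eq_iff_mul_eq_one, el_mul, add_neg_cancel, el_zero]

theorem el_conj (y : GV Γ M) (m : M) : y * el Γ m * y⁻¹ = el Γ (v y.g • m) := by
  refine GV.ext ?_ ?_
  · simp only [el, mul_m, mul_g, inv_m, mul_one, smul_neg, smul_smul, v_mul_inv, one_smul]
    abel
  · change y.g * 1 * y.g⁻¹ = 1
    rw [mul_one, mul_inv_cancel]

theorem el_pow (m : M) (n : ℕ) : (el Γ m) ^ n = el Γ (n • m) := by
  induction n with
  | zero => rw [pow_zero, zero_smul, el_zero]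
  | succ n ih => rw [pow_succ, ih, el_mul, succ_nsmul]

theorem pow_g (a : GV Γ M) (n : ℕ) : (a ^ n).g = a.g ^ n := by
  induction n with
  | zero => rw [pow_zero, pow_zero]; rfl
  | succ n ih => rw [pow_succ, pow_succ, mul_g, ih]

theorem add_list (Q : Set (GV Γ M)) (hQ : ∀ a ∈ Q, ∀ b ∈ Q, a * b ∈ Q) (e : M)
    (he : ∀ u : Γ, el Γ (v u • e) ∈ Q) (l : List Γ) (m : M) (h : el Γ m ∈ Q) :
    el Γ (m + lsum l • e) ∈ Q := by
  induction l generalizing m with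
  | nil =>
    unfold lsum
    rw [List.map_nil, List.sum_nil, zero_smul, add_zero]; exact h
  | cons u l ih =>
    have h1 := hQ _ h _ (he u)
    rw [el_mul] at h1
    have h2 := ih _ h1
    unfold lsum at h2 ⊢
    rw [List.map_cons, List.sum_cons, add_smul, ← add_assoc]
    exact h2

/-- The group has no bi-invariant order. -/
theorem not_ordered (g₁ : Γ) (l : List Γ) (e : M) (he : e ≠ 0) (hX : (v g₁ + lsum l) • e = 0)
    (Q : Set (GV Γ M)) (hQ1 : ∀ a ∈ Q, ∀ b ∈ Q, a * b ∈ Q)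
    (hQ2 : ∀ a ∈ Q, ∀ g : GV Γ M, g * a * g⁻¹ ∈ Q) (hQ3 : (1 : GV Γ M) ∉ Q)
    (hQ4 : ∀ a : GV Γ M, a ≠ 1 → a ∈ Q ∨ a⁻¹ ∈ Q) : False := by
  have key : ∀ f : M, (v g₁ + lsum l) • f = 0 → el Γ f ∉ Q := by
    intro f hf h
    have h1 : ∀ u : Γ, el Γ (v u • f) ∈ Q := by
      intro u
      have := hQ2 _ h ⟨0, u⟩
      rwa [el_conj] at this
    have h2 := add_list Q hQ1 f h1 l _ (h1 g₁)
    rw [← add_smul, hf, el_zero] at h2
    exact hQ3 h2
  have hne : el Γ e ≠ 1 := by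
    intro h
    exact he (congrArg GV.m h)
  rcases hQ4 _ hne with h | h
  · exact key e hX h
  · rw [el_inv] at h
    exact key (-e) (by rw [smul_neg, hX, neg_zero]) h

/-- `Γ` is torsion-free. -/
theorem torsionFree_gam (C : Set S) (h0 : (0 : S) ∉ C) (hadd : ∀ a ∈ C, ∀ b ∈ C, a + b ∈ C)
    (htot : ∀ a, a ≠ 0 → a ∈ C ∨ -a ∈ C) (hr : ∀ u : Γ, ∀ a ∈ C, a * v u ∈ C)
    (u : Γ) (n : ℕ) (hn : 0 < n) (h : u ^ n = 1) : u = 1 := by
  by_contra hu
  have h2 : v u - 1 ≠ 0 := by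
    intro h
    rw [sub_eq_zero] at h
    exact hu (Subtype.ext (Units.ext h))
  have key : ∀ D : Set S, (∀ a ∈ D, ∀ b ∈ D, a + b ∈ D) → (∀ u : Γ, ∀ a ∈ D, a * v u ∈ D) →
      v u - 1 ∈ D → ∀ n, v (u ^ (n + 1)) - 1 ∈ D := by
    intro D hD1 hD2 hD3 n
    induction n with
    | zero => rw [zero_add, pow_one]; exact hD3
    | succ n ih =>
      have h3 : v (u ^ (n + 1 + 1)) - 1 = (v (u ^ (n + 1)) - 1) * v u + (v u - 1) := by
        rw [pow_succ u (n + 1), v_mul]; noncomm_ring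
      rw [h3]
      exact hD1 _ (hD2 _ _ ih) _ hD3
  obtain ⟨m, rfl⟩ : ∃ m, n = m + 1 := ⟨n - 1, by omega⟩
  rcases htot _ h2 with h3 | h3
  · have h4 := key C hadd hr h3 m
    rw [h, v_one, sub_self] at h4
    exact h0 h4
  · have h4 := key {a | -a ∈ C} (by
      intro a ha b hb
      change -(a + b) ∈ C
      rw [neg_add]
      exact hadd _ ha _ hb) (by
      intro u a ha
      change -(a * v u) ∈ C
      rw [← neg_mul]
      exact hr _ _ ha) h3 m
    rw [h, v_one, sub_self] at h4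
    change -(0 : S) ∈ C at h4
    rw [neg_zero] at h4
    exact h0 h4

/-- A torsion-free Engel group without a bi-invariant order. -/
theorem exists_group : ∃ (G : Type) (_ : Group G),
    (∀ g : G, ∀ n : ℕ, 0 < n → g ^ n = 1 → g = 1) ∧
    (∀ x y : G, ∃ n : ℕ, (fun a : G => a⁻¹ * y⁻¹ * a * y)^[n] x = 1) ∧
    ∀ Q : Set G, (∀ a ∈ Q, ∀ b ∈ Q, a * b ∈ Q) → (∀ a ∈ Q, ∀ g : G, g * a * g⁻¹ ∈ Q) →
      (1 : G) ∉ Q → ¬ (∀ a : G, a ≠ 1 → a ∈ Q ∨ a⁻¹ ∈ Q) := by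
  obtain ⟨S, _, _, Γ, C, g₁, l, hE, hU, h0, hadd, htot, hl, hr, hX⟩ := Tens.summary
  set ξ : S := v g₁ + lsum l with hξ
  have hX' : ∀ s : S, s * ξ ≠ 1 := hX
  let N : Submodule S S := Submodule.span S {ξ}
  refine ⟨GV Γ (S ⧸ N), inferInstance, ?_, engel_GV hE hU, ?_⟩
  · intro a n hn h
    have h1 : a.g = 1 := by
      apply torsionFree_gam C h0 hadd htot hr a.g n hn
      rw [← pow_g, h]; rfl
    have h2 : a = el Γ a.m := GV.ext rfl h1
    rw [h2, el_pow] at h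
    have h3 : n • a.m = 0 := congrArg GV.m h
    have h4 : a.m = 0 := by
      have h5 : (n : ℚ) ≠ 0 := by exact_mod_cast hn.ne'
      have h6 : ((n : ℚ)) • a.m = 0 := by rw [Nat.cast_smul_eq_nsmul]; exact h3
      exact (smul_eq_zero.mp h6).resolve_left h5
    rw [h2, h4]; rfl
  · intro Q h1 h2 h3 h4
    refine not_ordered g₁ l (Submodule.Quotient.mk (1 : S) : S ⧸ N) ?_ ?_ Q h1 h2 h3 h4
    · intro h
      rw [Submodule.Quotient.mk_eq_zero, Submodule.mem_span_singleton] at h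
      obtain ⟨s, hs⟩ := h
      exact hX' s hs
    · rw [← hξ, ← Submodule.Quotient.mk_smul, Submodule.Quotient.mk_eq_zero,
        Submodule.mem_span_singleton]
      exact ⟨1, by rw [one_smul, smul_eq_mul, mul_one]⟩

end Pool.Agent.Helper824.TF
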