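import Pool.Agent.Helper824.AlgR
import Pool.Agent.Helper824.Filt

set_option autoImplicit false

namespace Pool.Agent.Helper824.Tens

open Polynomial TensorProduct Pool.Agent.Helper824.AlgR Pool.Agent.Helper824.Filt

variable {k : ℕ} {B : Type} [Ring B] [Algebra ℚ B]

/-- The tensor square. -/
abbrev T2 (B : Type) [Ring B] [Algebra ℚ B] : Type := B ⊗[ℚ] B

/-- left inclusion -/
noncomputable def inL : B →ₐ[ℚ] T2 B := Algebra.TensorProduct.includeLeft

/-- right inclusion -/
noncomputable def inR : B →ₐ[ℚ] T2 B := Algebra.TensorProduct.includeRight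

theorem inL_mul_inR (a b : B) : inL a * inR b = a ⊗ₜ[ℚ] b := by
  simp [inL, inR]

theorem commute_in (a b : B) : Commute (inL a) (inR b) := by
  unfold Commute SemiconjBy
  simp [inL, inR]

theorem commute_map (p q : B[X]) :
    Commute (mapAlgHom inL p : (T2 B)[X]) (mapAlgHom inR q) := by
  rw [Polynomial.coe_mapAlgHom, Polynomial.coe_mapAlgHom]
  induction p using Polynomial.induction_on' with
  | add p p' hp hp' => rw [Polynomial.map_add]; exact hp.add_left hp'
  | monomial n a =>
    induction q using Polynomial.induction_on' with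
    | add q q' hq hq' => rw [Polynomial.map_add]; exact hq.add_right hq'
    | monomial m b =>
      rw [Polynomial.map_monomial, Polynomial.map_monomial]
      unfold Commute SemiconjBy
      rw [monomial_mul_monomial, monomial_mul_monomial, add_comm]
      congr 1
      exact commute_in a b

variable (G : GNil k B)

/-- The grading of the tensor square. -/
noncomputable def DS : T2 B →ₐ[ℚ] (T2 B)[X] :=
  Algebra.TensorProduct.lift ((mapAlgHom inL).comp G.D) ((mapAlgHom inR).comp G.D)
    (fun a b => commute_map (G.D a) (G.D b))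

theorem DS_tmul (a b : B) :
    DS G (a ⊗ₜ[ℚ] b) = (G.D a).map (inL : B →ₐ[ℚ] T2 B).toRingHom *
      (G.D b).map (inR : B →ₐ[ℚ] T2 B).toRingHom := by
  unfold DS
  rw [Algebra.TensorProduct.lift_tmul]
  rfl

theorem DS_inL (a : B) : DS G (inL a) = (G.D a).map (inL : B →ₐ[ℚ] T2 B).toRingHom := by
  have h : inL a = a ⊗ₜ[ℚ] (1 : B) := rfl
  rw [h, DS_tmul, map_one, Polynomial.map_one, mul_one]

theorem DS_inR (a : B) : DS G (inR a) = (G.D a).map (inR : B →ₐ[ℚ] T2 B).toRingHom := by
  have h : inR a = (1 : B) ⊗ₜ[ℚ] a := rfl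
  rw [h, DS_tmul, map_one, Polynomial.map_one, one_mul]

theorem eval_map_one (f : B →+* T2 B) (p : B[X]) : (p.map f).eval 1 = f (p.eval 1) := by
  induction p using Polynomial.induction_on' with
  | add p p' hp hp' => rw [Polynomial.map_add, eval_add, eval_add, map_add, hp, hp']
  | monomial n a => simp

theorem eval_mul_one (p q : (T2 B)[X]) : (p * q).eval 1 = p.eval 1 * q.eval 1 := by
  unfold Polynomial.eval
  exact eval₂_mul_noncomm _ _ (fun k => Commute.one_right _)

theorem eval_DS (s : T2 B) : (DS G s).eval 1 = s := by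
  induction s using TensorProduct.induction_on with
  | zero => simp
  | tmul a b =>
    rw [DS_tmul, eval_mul_one, eval_map_one, eval_map_one, G.eval_D, G.eval_D]
    exact inL_mul_inR a b
  | add s t hs ht => rw [map_add, eval_add, hs, ht]

theorem DS_injective (s : T2 B) (h : DS G s = 0) : s = 0 := by
  rw [← eval_DS G s, h, eval_zero]

/-- The quadratic element. -/
noncomputable def qq : T2 B := ∑ i, G.x i ⊗ₜ[ℚ] G.x i

theorem DS_qq : DS G (qq G) = C (qq G) * X ^ 2 := by
  unfold qq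
  rw [map_sum, map_sum, Finset.sum_mul]
  apply Finset.sum_congr rfl
  intro i _
  rw [DS_tmul, G.D_x, Polynomial.map_mul, Polynomial.map_mul, map_C, map_C, map_X, map_X,
    ← inL_mul_inR, C_mul, sq]
  change C (inL _) * X * (C (inR _) * X) = _
  rw [mul_assoc, ← mul_assoc X, X_mul_C, mul_assoc, ← mul_assoc (C _)]

theorem qq_pow_pos (ψ : B →ₗ[ℚ] ℚ) (n : ℕ) : ∀ u : B,
    0 ≤ TensorProduct.lift ((LinearMap.mul ℚ ℚ).compl₁₂ ψ ψ) ((u ⊗ₜ[ℚ] u) * qq G ^ n) ∧
    ∀ w : List (Fin (k + 1)), w.length = n → ψ (u * (w.map G.x).prod) ≠ 0 →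
    0 < TensorProduct.lift ((LinearMap.mul ℚ ℚ).compl₁₂ ψ ψ) ((u ⊗ₜ[ℚ] u) * qq G ^ n) := by
  induction n with
  | zero =>
    intro u
    rw [pow_zero, mul_one]
    simp only [TensorProduct.lift.tmul, LinearMap.compl₁₂_apply, LinearMap.mul_apply']
    refine ⟨mul_self_nonneg _, ?_⟩
    intro w hw h
    rw [List.length_eq_zero_iff] at hw
    subst hw
    simp only [List.map_nil, List.prod_nil, mul_one] at h
    exact mul_self_pos.mpr h
  | succ n ih =>
    intro u
    have e : (u ⊗ₜ[ℚ] u) * qq G ^ (n + 1) =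
        ∑ i, ((u * G.x i) ⊗ₜ[ℚ] (u * G.x i)) * qq G ^ n := by
      rw [pow_succ', ← mul_assoc]
      conv_lhs => rw [show (u ⊗ₜ[ℚ] u) * qq G = ∑ i, (u * G.x i) ⊗ₜ[ℚ] (u * G.x i) by
        unfold qq
        rw [Finset.mul_sum]
        apply Finset.sum_congr rfl
        intro i _
        rw [Algebra.TensorProduct.tmul_mul_tmul]]
      rw [Finset.sum_mul]
    rw [e, map_sum]
    refine ⟨Finset.sum_nonneg (fun i _ => (ih _).1), ?_⟩
    intro w hw h
    cases w with
    | nil => simp at hw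
    | cons i w =>
      rw [List.map_cons, List.prod_cons, ← mul_assoc] at h
      apply Finset.sum_pos' (fun i _ => (ih _).1) ⟨i, Finset.mem_univ _, ?_⟩
      exact (ih _).2 w (by simpa using hw) h

theorem qq_pow_ne_zero (n : ℕ) : qq G ^ n ≠ 0 := by
  obtain ⟨w, hw, hne⟩ := G.word_ne n
  obtain ⟨ψ, hψ⟩ : ∃ ψ : B →ₗ[ℚ] ℚ, ψ ((w.map G.x).prod) ≠ 0 := by
    by_contra hcon
    push Not at hcon
    exact hne ((Module.forall_dual_apply_eq_zero_iff ℚ _).mp hcon)
  have h := (qq_pow_pos G ψ n 1).2 w hw (by rwa [one_mul])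
  intro h0
  rw [h0, mul_zero, map_zero] at h
  exact lt_irrefl _ h

/-- The element `c + q` has no left inverse. -/
theorem mul_ne_one (c : ℚ) (hc : c ≠ 0) (s : T2 B) : s * (algebraMap ℚ (T2 B) c + qq G) ≠ 1 := by
  intro h
  have h1 : DS G s * (algebraMap ℚ (T2 B)[X] c + C (qq G) * X ^ 2) = 1 := by
    have := congrArg (DS G) h
    rwa [map_mul, map_add, map_one, AlgHom.commutes, DS_qq] at this
  set p := DS G s with hp
  have h2 : ∀ n, c • p.coeff (n + 2) + p.coeff n * qq G = (1 : (T2 B)[X]).coeff (n + 2) := by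
    intro n
    rw [← h1, mul_add, coeff_add, ← mul_assoc, coeff_mul_X_pow, coeff_mul_C]
    congr 1
    rw [← Algebra.commutes, ← Algebra.smul_def, coeff_smul]
  have h3 : c • p.coeff 0 = 1 := by
    have h4 : (p * (algebraMap ℚ (T2 B)[X] c + C (qq G) * X ^ 2)).coeff 0 = c • p.coeff 0 := by
      rw [mul_add, coeff_add, ← mul_assoc, mul_coeff_zero (p * C (qq G)), coeff_X_pow,
        if_neg (by norm_num), mul_zero, add_zero, ← Algebra.commutes, ← Algebra.smul_def, coeff_smul]
    rw [← h4, h1, coeff_one_zero]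
  have h5 : ∀ n, ∃ d : ℚ, d ≠ 0 ∧ p.coeff (2 * n) = d • qq G ^ n := by
    intro n
    induction n with
    | zero =>
      refine ⟨c⁻¹, inv_ne_zero hc, ?_⟩
      rw [pow_zero, ← h3, mul_zero, smul_smul, inv_mul_cancel₀ hc, one_smul]
    | succ n ih =>
      obtain ⟨d, hd, ih⟩ := ih
      refine ⟨-(c⁻¹ * d), by simp [hc, hd], ?_⟩
      have h6 := h2 (2 * n)
      rw [ih, coeff_one, if_neg (by omega), add_eq_zero_iff_eq_neg] at h6
      have h7 : p.coeff (2 * n + 2) = c⁻¹ • (c • p.coeff (2 * n + 2)) := by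
        rw [smul_smul, inv_mul_cancel₀ hc, one_smul]
      rw [mul_add, mul_one, h7, h6, smul_mul_assoc, ← pow_succ, smul_neg, smul_smul, neg_smul]
  obtain ⟨d, hd, h6⟩ := h5 (p.natDegree + 1)
  have h7 : p.coeff (2 * (p.natDegree + 1)) = 0 := coeff_eq_zero_of_natDegree_lt (by omega)
  rw [h7] at h6
  have h8 : qq G ^ (p.natDegree + 1) = 0 := by
    have := congrArg (fun z => d⁻¹ • z) h6
    simp only [smul_zero, smul_smul, inv_mul_cancel₀ hd, one_smul] at this
    exact this.symm
  exact qq_pow_ne_zero G _ h8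

end Pool.Agent.Helper824.Tens
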